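import Mathlib

/-!
# MP_b5ead8_al: Nielsen equivalence of tuples
-/

set_option autoImplicit false

namespace Pool.Agent.MPb5ead8

open FreeGroup Function

/-- Nielsen equivalence of two tuples of elements of a group (with arbitrary index types): the
homomorphisms of free groups differ by an isomorphism. -/
def NE {ι κ G : Type} [Group G] (t : ι → G) (s : κ → G) : Prop :=
  ∃ α : FreeGroup κ ≃* FreeGroup ι, ∀ k, FreeGroup.lift t (α (FreeGroup.of k)) = s k

section

variable {ι κ ν G H : Type} [Group G] [Group H]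

theorem NE.hom {t : ι → G} {s : κ → G} {α : FreeGroup κ ≃* FreeGroup ι}
    (h : ∀ k, FreeGroup.lift t (α (FreeGroup.of k)) = s k) (x : FreeGroup κ) :
    FreeGroup.lift t (α x) = FreeGroup.lift s x := by
  have : (FreeGroup.lift t).comp α.toMonoidHom = FreeGroup.lift s := by
    ext k
    simpa using h k
  exact DFunLike.congr_fun this x

theorem NE.refl (t : ι → G) : NE t t := ⟨MulEquiv.refl _, fun k => by simp⟩

theorem NE.symm {t : ι → G} {s : κ → G} (h : NE t s) : NE s t := by
  obtain ⟨α, hα⟩ := h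
  refine ⟨α.symm, fun k => ?_⟩
  rw [← NE.hom hα, MulEquiv.apply_symm_apply, FreeGroup.lift_apply_of]

theorem NE.trans {t : ι → G} {s : κ → G} {r : ν → G} (h : NE t s) (h' : NE s r) : NE t r := by
  obtain ⟨α, hα⟩ := h
  obtain ⟨β, hβ⟩ := h'
  exact ⟨β.trans α, fun k => by rw [MulEquiv.trans_apply, NE.hom hα, hβ]⟩

theorem NE.of_eq {t s : ι → G} (h : t = s) : NE t s := h ▸ NE.refl t

theorem NE.reindex (t : ι → G) (e : κ ≃ ι) : NE t (t ∘ e) :=
  ⟨FreeGroup.freeGroupCongr e, fun k => by simp⟩

theorem NE.map (f : G →* H) {t : ι → G} {s : κ → G} (h : NE t s) :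
    NE (f ∘ t) (f ∘ s) := by
  obtain ⟨α, hα⟩ := h
  refine ⟨α, fun k => ?_⟩
  have h1 : FreeGroup.lift (f ∘ t) = f.comp (FreeGroup.lift t) := by
    ext i
    simp
  rw [h1, MonoidHom.comp_apply, hα]
  rfl

theorem NE.lift_map (f : G →* H) {t : ι → G} {s : κ → H} (h : NE (f ∘ t) s) :
    ∃ t1 : κ → G, NE t t1 ∧ f ∘ t1 = s := by
  obtain ⟨α, hα⟩ := h
  refine ⟨fun k => FreeGroup.lift t (α (FreeGroup.of k)), ⟨α, fun k => rfl⟩, ?_⟩
  funext k
  rw [← hα k]
  have h1 : FreeGroup.lift (f ∘ t) = f.comp (FreeGroup.lift t) := by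
    ext i
    simp
  rw [h1]
  rfl

theorem NE.closure {t : ι → G} {s : κ → G} (h : NE t s) :
    Subgroup.closure (Set.range t) = Subgroup.closure (Set.range s) := by
  obtain ⟨α, hα⟩ := h
  rw [← FreeGroup.range_lift_eq_closure, ← FreeGroup.range_lift_eq_closure]
  ext x
  constructor
  · rintro ⟨y, rfl⟩
    refine ⟨α.symm y, ?_⟩
    rw [← NE.hom hα, MulEquiv.apply_symm_apply]
  · rintro ⟨y, rfl⟩
    exact ⟨α y, NE.hom hα y⟩

theorem NE.closure_top {t : ι → G} {s : κ → G} (h : NE t s)
    (ht : Subgroup.closure (Set.range t) = ⊤) : Subgroup.closure (Set.range s) = ⊤ := by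
  rw [← h.closure, ht]

/-- Elementary move: multiplication of one entry by another one. -/
theorem NE.mul_right [DecidableEq ι] (t : ι → G) {i j : ι} (hij : j ≠ i) :
    NE t (update t i (t i * t j)) := by
  have key : ∀ u v : FreeGroup ι, u * v = 1 → u ∈ ({FreeGroup.of j, (FreeGroup.of j)⁻¹} :
      Set (FreeGroup ι)) →
      (FreeGroup.lift (fun k => if k = i then FreeGroup.of i * v else FreeGroup.of k)).comp
      (FreeGroup.lift (fun k => if k = i then FreeGroup.of i * u else FreeGroup.of k)) =
      MonoidHom.id (FreeGroup ι) := by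
    intro u v huv hu
    ext k
    by_cases hk : k = i
    · subst hk
      rcases hu with hu | hu
      · subst hu
        have : v = (FreeGroup.of j)⁻¹ := (inv_eq_of_mul_eq_one_right huv).symm
        subst this
        simp [hij]
      · rw [Set.mem_singleton_iff] at hu
        subst hu
        have : v = FreeGroup.of j := by
          rw [← inv_eq_of_mul_eq_one_right huv, inv_inv]
        subst this
        simp [hij]
    · simp [hk]
  refine ⟨MonoidHom.toMulEquiv
    (FreeGroup.lift (fun k => if k = i then FreeGroup.of i * FreeGroup.of j else FreeGroup.of k))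
    (FreeGroup.lift (fun k => if k = i then FreeGroup.of i * (FreeGroup.of j)⁻¹
      else FreeGroup.of k))
    (key _ _ (mul_inv_cancel _) (by simp)) (key _ _ (inv_mul_cancel _) (by simp)), fun k => ?_⟩
  by_cases hk : k = i
  · subst hk
    simp
  · simp [hk]

/-- Elementary move: inversion of one entry. -/
theorem NE.inv [DecidableEq ι] (t : ι → G) (i : ι) : NE t (update t i (t i)⁻¹) := by
  have key : (FreeGroup.lift (fun k => if k = i then (FreeGroup.of i)⁻¹
      else FreeGroup.of k)).comp (FreeGroup.lift (fun k => if k = i then (FreeGroup.of i)⁻¹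
      else FreeGroup.of k)) = MonoidHom.id (FreeGroup ι) := by
    ext k
    by_cases hk : k = i
    · subst hk
      simp
    · simp [hk]
  refine ⟨MonoidHom.toMulEquiv _ _ key key, fun k => ?_⟩
  by_cases hk : k = i
  · subst hk
    simp
  · simp [hk]

theorem NE.update_inv [DecidableEq ι] (t : ι → G) (i : ι) (a : G) :
    NE (update t i a) (update t i a⁻¹) := by
  have := NE.inv (update t i a) i
  rwa [update_self, update_idem] at this

/-- Multiplication of one entry by an element of the subgroup generated by the others. -/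
theorem NE.update_mul_right [DecidableEq ι] (t : ι → G) (i : ι) {g : G}
    (hg : g ∈ Subgroup.closure (t '' {j | j ≠ i})) (a : G) :
    NE (update t i a) (update t i (a * g)) := by
  induction hg using Subgroup.closure_induction generalizing a with
  | mem x hx =>
    obtain ⟨j, hj, rfl⟩ := hx
    have := NE.mul_right (update t i a) (i := i) (j := j) hj
    rwa [update_self, update_idem, update_of_ne hj] at this
  | one => rw [mul_one]; exact NE.refl _
  | mul x y _ _ hx hy => rw [← mul_assoc]; exact (hx a).trans (hy _)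
  | inv x _ hx =>
    have := hx (a * x⁻¹)
    rw [inv_mul_cancel_right] at this
    exact this.symm

theorem NE.update_mul_left [DecidableEq ι] (t : ι → G) (i : ι) {g : G}
    (hg : g ∈ Subgroup.closure (t '' {j | j ≠ i})) (a : G) :
    NE (update t i a) (update t i (g * a)) := by
  refine (NE.update_inv t i a).trans (((NE.update_mul_right t i (inv_mem hg) a⁻¹)).trans ?_)
  have := NE.update_inv t i (a⁻¹ * g⁻¹)
  rwa [mul_inv_rev, inv_inv, inv_inv] at this

/-- Replacement of a part of a tuple by an equivalent tuple. -/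
theorem NE.sum_right (s : ν → G) {r : ι → G} {r' : κ → G} (h : NE r r') :
    NE (Sum.elim s r) (Sum.elim s r') := by
  obtain ⟨α, hα⟩ := h
  have key : ∀ {ι κ : Type} (α : FreeGroup κ ≃* FreeGroup ι),
      (FreeGroup.lift (Sum.elim (fun n => FreeGroup.of (Sum.inl n : ν ⊕ κ))
        (fun k => FreeGroup.map (Sum.inr : κ → ν ⊕ κ) (α.symm (FreeGroup.of k))))).comp
      (FreeGroup.lift (Sum.elim (fun n => FreeGroup.of (Sum.inl n : ν ⊕ ι))
        (fun k => FreeGroup.map (Sum.inr : ι → ν ⊕ ι) (α (FreeGroup.of k))))) =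
      MonoidHom.id _ := by
    intro ι κ α
    ext k
    cases k with
    | inl n => simp
    | inr k =>
      simp only [MonoidHom.comp_apply, FreeGroup.lift_apply_of, Sum.elim_inr, MonoidHom.id_apply]
      have h1 : ∀ x : FreeGroup ι, FreeGroup.lift (Sum.elim
          (fun n => FreeGroup.of (Sum.inl n : ν ⊕ κ))
          (fun k => FreeGroup.map (Sum.inr : κ → ν ⊕ κ) (α.symm (FreeGroup.of k))))
          (FreeGroup.map (Sum.inr : ι → ν ⊕ ι) x) =
          FreeGroup.map (Sum.inr : κ → ν ⊕ κ) (α.symm x) := by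
        intro x
        have : (FreeGroup.lift (Sum.elim
          (fun n => FreeGroup.of (Sum.inl n : ν ⊕ κ))
          (fun k => FreeGroup.map (Sum.inr : κ → ν ⊕ κ) (α.symm (FreeGroup.of k))))).comp
          (FreeGroup.map (Sum.inr : ι → ν ⊕ ι)) =
          (FreeGroup.map (Sum.inr : κ → ν ⊕ κ)).comp α.symm.toMonoidHom := by
          ext i
          simp
        exact DFunLike.congr_fun this x
      rw [h1, MulEquiv.symm_apply_apply]
      simp
  refine ⟨MonoidHom.toMulEquiv _ _ (key α) (by simpa using key α.symm), fun k => ?_⟩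
  change FreeGroup.lift (Sum.elim s r) (FreeGroup.lift (Sum.elim
    (fun n => FreeGroup.of (Sum.inl n : ν ⊕ ι))
    (fun k => FreeGroup.map (Sum.inr : ι → ν ⊕ ι) (α (FreeGroup.of k)))) (FreeGroup.of k)) = _
  cases k with
  | inl n => simp
  | inr k =>
    simp only [FreeGroup.lift_apply_of, Sum.elim_inr]
    rw [← hα k]
    have : (FreeGroup.lift (Sum.elim s r)).comp (FreeGroup.map (Sum.inr : ι → ν ⊕ ι)) =
        FreeGroup.lift r := by
      ext i
      simp
    exact DFunLike.congr_fun this _

/-- Shear: the entries of the second part are multiplied by words in the first part. -/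
theorem NE.shear (t : ι → G) (z : κ → G) (w : κ → FreeGroup ι) :
    NE (Sum.elim t z) (Sum.elim t (fun k => z k * FreeGroup.lift t (w k))) := by
  have key : ∀ v u : κ → FreeGroup ι, (∀ k, u k * v k = 1) →
      (FreeGroup.lift (Sum.elim (fun i => FreeGroup.of (Sum.inl i : ι ⊕ κ))
        (fun k => FreeGroup.of (Sum.inr k : ι ⊕ κ) *
          FreeGroup.map (Sum.inl : ι → ι ⊕ κ) (u k)))).comp
      (FreeGroup.lift (Sum.elim (fun i => FreeGroup.of (Sum.inl i : ι ⊕ κ))
        (fun k => FreeGroup.of (Sum.inr k : ι ⊕ κ) *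
          FreeGroup.map (Sum.inl : ι → ι ⊕ κ) (v k)))) = MonoidHom.id _ := by
    intro v u huv
    have h1 : ∀ x : FreeGroup ι, FreeGroup.lift (Sum.elim
        (fun i => FreeGroup.of (Sum.inl i : ι ⊕ κ))
        (fun k => FreeGroup.of (Sum.inr k : ι ⊕ κ) *
          FreeGroup.map (Sum.inl : ι → ι ⊕ κ) (u k)))
        (FreeGroup.map (Sum.inl : ι → ι ⊕ κ) x) = FreeGroup.map (Sum.inl : ι → ι ⊕ κ) x := by
      intro x
      have : (FreeGroup.lift (Sum.elim
        (fun i => FreeGroup.of (Sum.inl i : ι ⊕ κ))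
        (fun k => FreeGroup.of (Sum.inr k : ι ⊕ κ) *
          FreeGroup.map (Sum.inl : ι → ι ⊕ κ) (u k)))).comp
        (FreeGroup.map (Sum.inl : ι → ι ⊕ κ)) = FreeGroup.map (Sum.inl : ι → ι ⊕ κ) := by
        ext i
        simp
      exact DFunLike.congr_fun this x
    ext k
    cases k with
    | inl i => simp
    | inr k =>
      simp only [MonoidHom.comp_apply, FreeGroup.lift_apply_of, Sum.elim_inr, _root_.map_mul,
        MonoidHom.id_apply]
      rw [h1, mul_assoc, ← _root_.map_mul, huv, _root_.map_one, mul_one]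
  refine ⟨MonoidHom.toMulEquiv _ _ (key w (fun k => (w k)⁻¹) fun k => inv_mul_cancel _)
    (key (fun k => (w k)⁻¹) w fun k => mul_inv_cancel _), fun k => ?_⟩
  change FreeGroup.lift (Sum.elim t z) (FreeGroup.lift (Sum.elim
    (fun i => FreeGroup.of (Sum.inl i : ι ⊕ κ)) (fun k => FreeGroup.of (Sum.inr k : ι ⊕ κ) *
      FreeGroup.map (Sum.inl : ι → ι ⊕ κ) (w k))) (FreeGroup.of k)) = _
  cases k with
  | inl i => simp
  | inr k =>
    simp only [FreeGroup.lift_apply_of, Sum.elim_inr, _root_.map_mul]
    congr 1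
    have : (FreeGroup.lift (Sum.elim t z)).comp (FreeGroup.map (Sum.inl : ι → ι ⊕ κ)) =
        FreeGroup.lift t := by
      ext i
      simp
    exact DFunLike.congr_fun this _

theorem NE.swap_sum (t : ι → G) (z : κ → G) : NE (Sum.elim t z) (Sum.elim z t) := by
  have := NE.reindex (Sum.elim t z) (Equiv.sumComm κ ι)
  refine this.trans (NE.of_eq ?_)
  funext x
  cases x <;> rfl

theorem NE.sum_left (s : ν → G) {r : ι → G} {r' : κ → G} (h : NE r r') :
    NE (Sum.elim r s) (Sum.elim r' s) :=
  (NE.swap_sum r s).trans ((NE.sum_right s h).trans (NE.swap_sum s r'))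

/-- Shear in the other direction. -/
theorem NE.shear' (t : ι → G) (z : κ → G) (w : ι → FreeGroup κ) :
    NE (Sum.elim t z) (Sum.elim (fun i => t i * FreeGroup.lift z (w i)) z) :=
  (NE.swap_sum t z).trans ((NE.shear z t w).trans (NE.swap_sum z _))

end

end Pool.Agent.MPb5ead8
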