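import Pool.Agent.Lib.MP_b5ead8_al.Word
import Pool.Agent.Lib.MP_b5ead8_al.NE

/-!
# MP_b5ead8_al: definitions for Nielsen reduction and for standard tuples
-/

set_option autoImplicit false

namespace Pool.Agent.MPb5ead8

open FreeGroup Function

section

variable {ι G : Type} [Group G]

/-- The signed entries of a tuple. -/
def V (t : ι → G) (a : ι × Bool) : G := if a.2 then t a.1 else (t a.1)⁻¹

/-- The opposite of a signed index. -/
def bar (a : ι × Bool) : ι × Bool := (a.1, !a.2)

theorem bar_bar (a : ι × Bool) : bar (bar a) = a := by simp [bar]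

theorem V_bar (t : ι → G) (a : ι × Bool) : V t (bar a) = (V t a)⁻¹ := by
  rcases a with ⟨i, b⟩
  cases b <;> simp [V, bar]

end

/-- The digit of a signed letter. -/
def dig (h : ℕ) (x : Fin h × Bool) : ℕ := 2 * (x.1 : ℕ) + (if x.2 then 1 else 0)

theorem dig_lt (h : ℕ) (x : Fin h × Bool) : dig h x < 2 * h + 1 := by
  rcases x with ⟨i, b⟩
  have := i.2
  cases b
  · simp [dig]
  · simp [dig]

theorem dig_inj (h : ℕ) : Injective (dig h) := by
  rintro ⟨i, b⟩ ⟨j, c⟩ hij
  cases b <;> cases c <;> simp only [dig, Prod.mk.injEq, Fin.ext_iff] at hij ⊢ <;>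
    simp at hij ⊢ <;> omega

/-- The code of the first `k` letters. -/
def hc (h k : ℕ) (x : FreeGroup (Fin h)) : ℕ := code (2 * h + 1) (dig h) (x.toWord.take k)

/-- The second weight of an element: codes of the first halves of the word and of its inverse. -/
def sec (h : ℕ) (x : FreeGroup (Fin h)) : ℕ :=
  hc h ((x.norm + 1) / 2) x + hc h ((x.norm + 1) / 2) x⁻¹

/-- A tuple of elements of a free group is minimal if no Nielsen equivalent tuple has smaller
total length, or the same total length and smaller second weight. -/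
def Minimal {ι : Type} [Fintype ι] {h : ℕ} (t : ι → FreeGroup (Fin h)) : Prop :=
  ∀ s : ι → FreeGroup (Fin h), NE t s → ∑ i, (t i).norm < ∑ i, (s i).norm ∨
    (∑ i, (t i).norm = ∑ i, (s i).norm ∧ ∑ i, sec h (t i) ≤ ∑ i, sec h (s i))

/-- The standard generating tuple of `F_g × F_h`. -/
def std (g h : ℕ) : Fin g ⊕ Fin h → FreeGroup (Fin g) × FreeGroup (Fin h) :=
  Sum.elim (fun a => (FreeGroup.of a, 1)) (fun b => (1, FreeGroup.of b))

/-- A tuple is standard if it is Nielsen equivalent to the standard tuple, extended by ones. -/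
def Std {ι : Type} {g h : ℕ} (t : ι → FreeGroup (Fin g) × FreeGroup (Fin h)) : Prop :=
  ∃ ρ : Type, Finite ρ ∧ NE t (Sum.elim (std g h) (fun _ : ρ => 1))

/-- The inclusion of `F_1 × F_h` into `F_{k+1} × F_h` by the last generator. -/
def lastHom (k h : ℕ) : FreeGroup (Fin 1) × FreeGroup (Fin h) →*
    FreeGroup (Fin (k + 1)) × FreeGroup (Fin h) :=
  (FreeGroup.map (fun _ => Fin.last k)).prodMap (MonoidHom.id _)

/-- The first `k` generators of the first factor of `F_{k+1} × F_h`. -/
def firstGens (k h : ℕ) : Fin k → FreeGroup (Fin (k + 1)) × FreeGroup (Fin h) :=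
  fun l => (FreeGroup.of l.castSucc, 1)

end Pool.Agent.MPb5ead8
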