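import Pool.Agent.Lib.MP_b5ead8_al.StMin

/-!
# MP_b5ead8_al: the final statements
-/

set_option autoImplicit false

namespace Pool.Agent.MPb5ead8

open FreeGroup Function

theorem closure_of_surjective {ι : Type} {G : Type} [Group G] (π : FreeGroup ι →* G)
    (hπ : Surjective π) : Subgroup.closure (Set.range (fun i => π (FreeGroup.of i))) = ⊤ := by
  have h1 : FreeGroup.lift (fun i => π (FreeGroup.of i)) = π := by
    ext i
    simp
  rw [← FreeGroup.range_lift_eq_closure, h1]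
  exact MonoidHom.range_eq_top.2 hπ

/-- Stable theorem. -/
theorem final_stable (g h m k : ℕ) (hg : 1 ≤ g) (hh : 1 ≤ h) (hk : min g h ≤ k + 1)
    (π : FreeGroup ((Fin g ⊕ Fin h) ⊕ Fin m) →* FreeGroup (Fin g) × FreeGroup (Fin h))
    (hπ : Surjective π) :
    ∃ α : MulAut (FreeGroup ((Fin g ⊕ Fin h) ⊕ (Fin m ⊕ Fin k))),
      π.comp (FreeGroup.lift (Sum.elim (fun i => FreeGroup.of (Sum.inl i))
        (Sum.elim (fun j => FreeGroup.of (Sum.inr j)) (fun _ => 1)))) =
      (FreeGroup.lift (Sum.elim (Sum.elim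
        (fun i : Fin g => ((FreeGroup.of i, 1) : FreeGroup (Fin g) × FreeGroup (Fin h)))
        (fun j : Fin h => ((1, FreeGroup.of j) : FreeGroup (Fin g) × FreeGroup (Fin h))))
        (fun _ => 1))).comp α.toMonoidHom := by
  have h1 := stable_min (k := k) hg hh hk _ (closure_of_surjective π hπ)
  have h2 : Std (fun x : (Fin g ⊕ Fin h) ⊕ (Fin m ⊕ Fin k) =>
      π (Sum.elim (fun i => FreeGroup.of (Sum.inl i))
        (Sum.elim (fun j => FreeGroup.of (Sum.inr j)) (fun _ => 1)) x)) := by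
    refine Std.of_NE ?_ h1
    refine NE.symm ((NE.reindex _ (Equiv.sumAssoc (Fin g ⊕ Fin h) (Fin m) (Fin k)).symm).trans
      (NE.of_eq ?_))
    funext x
    rcases x with (x | x | x) <;> simp
  obtain ⟨α, hα⟩ := Std.exists_aut h2
  refine ⟨α, ?_⟩
  rw [std] at hα
  rw [← hα]
  ext x <;> simp

/-- One mixed generator. -/
theorem final_mixed (g h : ℕ) (π : FreeGroup (Fin g ⊕ Fin h) →*
      FreeGroup (Fin g) × FreeGroup (Fin h)) (hπ : Surjective π)
    (β : MulAut (FreeGroup (Fin g ⊕ Fin h))) (i₀ : Fin g ⊕ Fin h)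
    (hpure : ∀ i, i ≠ i₀ →
      (π (β (FreeGroup.of i))).1 = 1 ∨ (π (β (FreeGroup.of i))).2 = 1) :
    ∃ α : MulAut (FreeGroup (Fin g ⊕ Fin h)),
      π = (FreeGroup.lift (Sum.elim
        (fun i : Fin g => ((FreeGroup.of i, 1) : FreeGroup (Fin g) × FreeGroup (Fin h)))
        (fun j : Fin h => ((1, FreeGroup.of j) : FreeGroup (Fin g) × FreeGroup (Fin h))))).comp
        α.toMonoidHom := by
  have h0 : Surjective (π.comp β.toMonoidHom) := hπ.comp β.surjective
  have h1 := mixed (by simp) _ (closure_of_surjective _ h0) i₀ hpure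
  have h2 : Std (Sum.elim (fun i => (π.comp β.toMonoidHom) (FreeGroup.of i))
      (fun _ : Fin 0 => 1)) := Std.sum_one h1
  obtain ⟨α, hα⟩ := Std.exists_aut h2
  let e : FreeGroup (Fin g ⊕ Fin h) ≃* FreeGroup ((Fin g ⊕ Fin h) ⊕ Fin 0) :=
    FreeGroup.freeGroupCongr (Equiv.sumEmpty _ _).symm
  refine ⟨(β.symm.trans e).trans (α.trans e.symm), ?_⟩
  have h3 : ∀ s : Fin g ⊕ Fin h → FreeGroup (Fin g) × FreeGroup (Fin h),
      (FreeGroup.lift (Sum.elim s (fun _ : Fin 0 => 1))).comp e.toMonoidHom =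
      FreeGroup.lift s := by
    intro s
    ext x <;> simp [e]
  have h4 : ∀ s : Fin g ⊕ Fin h → FreeGroup (Fin g) × FreeGroup (Fin h), ∀ x,
      FreeGroup.lift s (e.symm x) = FreeGroup.lift (Sum.elim s (fun _ : Fin 0 => 1)) x := by
    intro s x
    rw [← h3 s]
    simp
  have h5 : FreeGroup.lift (fun i => (π.comp β.toMonoidHom) (FreeGroup.of i)) =
      π.comp β.toMonoidHom := by
    ext i <;> simp
  rw [std] at hα
  ext1 i
  change π (FreeGroup.of i) = FreeGroup.lift _ (e.symm (α (e (β.symm (FreeGroup.of i)))))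
  rw [h4]
  have h6 := DFunLike.congr_fun hα (e (β.symm (FreeGroup.of i)))
  have h7 := DFunLike.congr_fun (h3 (fun i => (π.comp β.toMonoidHom) (FreeGroup.of i)))
    (β.symm (FreeGroup.of i))
  rw [h5] at h7
  change _ = π (β (β.symm (FreeGroup.of i))) at h7
  rw [MulEquiv.apply_symm_apply] at h7
  rw [← h7]
  exact h6

end Pool.Agent.MPb5ead8
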