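import Pool.Agent.Lib.MP_b5ead8_al.Zed

/-!
# MP_b5ead8_al: tuples containing the first generators of the first factor
-/

set_option autoImplicit false

namespace Pool.Agent.MPb5ead8

open FreeGroup Function

theorem Std.of_NE {ι κ : Type} {g h : ℕ} {t : ι → FreeGroup (Fin g) × FreeGroup (Fin h)}
    {s : κ → FreeGroup (Fin g) × FreeGroup (Fin h)} (hts : NE t s) (hs : Std s) : Std t := by
  obtain ⟨ρ, hρ, h1⟩ := hs
  exact ⟨ρ, hρ, hts.trans h1⟩

/-- PROOF. The retraction `Ψ : F_{k+1} × F_h → F_1 × F_h`,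
`(FreeGroup.lift (Fin.lastCases (of 0) (fun _ => 1))).prodMap (MonoidHom.id _)`, satisfies
`Ψ (lastHom k h x) = x` (a homomorphism `FreeGroup (Fin 1) →* FreeGroup (Fin 1)` fixing `of 0`)
and `Ψ (firstGens k h l) = 1`. It is surjective, so the image
`Ψ '' (Set.range (Sum.elim (firstGens k h) (lastHom k h ∘ R)))` generates `F_1 × F_h`
(`MonoidHom.map_closure`), and this image is contained in `{1} ∪ Set.range R`. -/
theorem gen_of_glue {κ : Type} {k h : ℕ} (R : κ → FreeGroup (Fin 1) × FreeGroup (Fin h))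
    (hgen : Subgroup.closure (Set.range (Sum.elim (firstGens k h) (lastHom k h ∘ R))) = ⊤) :
    Subgroup.closure (Set.range R) = ⊤ := by
  let ψ : FreeGroup (Fin (k + 1)) →* FreeGroup (Fin 1) :=
    FreeGroup.lift (Fin.lastCases (FreeGroup.of 0) (fun _ => 1))
  let Ψ : FreeGroup (Fin (k + 1)) × FreeGroup (Fin h) →* FreeGroup (Fin 1) × FreeGroup (Fin h) :=
    ψ.prodMap (MonoidHom.id _)
  have h1 : ∀ x, Ψ (lastHom k h x) = x := by
    rintro ⟨x, y⟩
    have h2 : ψ.comp (FreeGroup.map (fun _ : Fin 1 => Fin.last k)) = MonoidHom.id _ := by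
      ext i
      rw [Subsingleton.elim i 0]
      simp [ψ]
    have h3 := DFunLike.congr_fun h2 x
    simp only [MonoidHom.comp_apply, MonoidHom.id_apply] at h3
    simp only [Ψ, lastHom, MonoidHom.prodMap, MonoidHom.prod_apply, MonoidHom.comp_apply,
      MonoidHom.coe_fst, MonoidHom.coe_snd, MonoidHom.id_apply, h3]
  have h2 : ∀ l, Ψ (firstGens k h l) = 1 := by
    intro l
    simp only [Ψ, firstGens, MonoidHom.prodMap, MonoidHom.prod_apply, MonoidHom.comp_apply,
      MonoidHom.coe_fst, MonoidHom.coe_snd, MonoidHom.id_apply, ψ, FreeGroup.lift_apply_of,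
      Fin.lastCases_castSucc]
    rfl
  rw [eq_top_iff]
  intro x _
  have h3 : lastHom k h x ∈ (Subgroup.closure (Set.range R)).comap Ψ := by
    have h4 : (⊤ : Subgroup (FreeGroup (Fin (k + 1)) × FreeGroup (Fin h))) ≤
        (Subgroup.closure (Set.range R)).comap Ψ := by
      rw [← hgen, Subgroup.closure_le]
      rintro _ ⟨y, rfl⟩
      rw [SetLike.mem_coe, Subgroup.mem_comap]
      cases y with
      | inl l =>
        rw [Sum.elim_inl, h2]
        exact one_mem _
      | inr j =>
        rw [Sum.elim_inr, Function.comp_apply, h1]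
        exact Subgroup.subset_closure ⟨j, rfl⟩
    exact h4 (Subgroup.mem_top _)
  rwa [Subgroup.mem_comap, h1] at h3

/-- PROOF. `gen_of_glue` and `z_lemma` give `NE R (Sum.elim (std 1 h) (fun _ : ρ => 1))`;
`NE.map (lastHom k h)` and `NE.sum_right (firstGens k h)` give
`NE (Sum.elim (firstGens k h) (lastHom k h ∘ R)) (Sum.elim (firstGens k h) (lastHom k h ∘
Sum.elim (std 1 h) (fun _ => 1)))`. Reindex by the equivalence
`((Fin (k + 1) ⊕ Fin h) ⊕ ρ) ≃ (Fin k ⊕ ((Fin 1 ⊕ Fin h) ⊕ ρ))` sending `castSucc l` to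
`inl l`, `last k` to `inr (inl (inl 0))` (e.g. built from `finSumFinEquiv`/`Fin.lastCases` or
given by explicit `Fin.lastCases`/`Sum.elim` maps). -/
theorem glue {κ : Type} [Finite κ] {k h : ℕ} (R : κ → FreeGroup (Fin 1) × FreeGroup (Fin h))
    (hgen : Subgroup.closure (Set.range (Sum.elim (firstGens k h) (lastHom k h ∘ R))) = ⊤) :
    Std (Sum.elim (firstGens k h) (lastHom k h ∘ R)) := by
  obtain ⟨ρ, hρ, h1⟩ := z_lemma R (gen_of_glue R hgen)
  have h2 := NE.sum_right (firstGens k h) (NE.map (lastHom k h) h1)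
  refine ⟨ρ, hρ, h2.trans ?_⟩
  let e : (Fin (k + 1) ⊕ Fin h) ⊕ ρ ≃ Fin k ⊕ ((Fin 1 ⊕ Fin h) ⊕ ρ) :=
    { toFun := Sum.elim (Sum.elim (Fin.lastCases (Sum.inr (Sum.inl (Sum.inl 0)))
          (fun l => Sum.inl l)) (fun b => Sum.inr (Sum.inl (Sum.inr b))))
          (fun r => Sum.inr (Sum.inr r))
      invFun := Sum.elim (fun l => Sum.inl (Sum.inl l.castSucc))
          (Sum.elim (Sum.elim (fun _ => Sum.inl (Sum.inl (Fin.last k)))
            (fun b => Sum.inl (Sum.inr b))) (fun r => Sum.inr r))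
      left_inv := by
        rintro ((a | b) | r)
        · refine Fin.lastCases ?_ (fun l => ?_) a
          · simp
          · simp
        · simp
        · simp
      right_inv := by
        rintro (l | ((i | b) | r))
        · simp
        · rw [Subsingleton.elim i 0]
          simp
        · simp
        · simp }
  refine (NE.reindex _ e).trans (NE.of_eq ?_)
  funext x
  rcases x with (a | b) | r
  · refine Fin.lastCases ?_ (fun l => ?_) a
    · simp [e, std, lastHom]
    · simp [e, std, firstGens]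
  · simp [e, std, lastHom]
  · simp [e]

end Pool.Agent.MPb5ead8
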