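import Pool.Agent.Lib.MP_b5ead8_al.Swap

/-!
# MP_b5ead8_al: generating tuples with one mixed entry, core
-/

set_option autoImplicit false

namespace Pool.Agent.MPb5ead8

open FreeGroup Function

/-- If `k + 1` elements `x l`, `u` generate `F_{k+1}`, then they are the image of the basis under
an automorphism. PROOF. `nielsen` for `Sum.elim x (fun _ : Fin 1 => u) : Fin k ⊕ Fin 1 → _`
reindexed by `finSumFinEquiv` (so that the tuple is `X : Fin (k + 1) → _`,
`X (castSucc l) = x l`, `X (last k) = u`, e.g. `X = Fin.snoc x u`) gives `ρ` with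
`NE X (Sum.elim of (fun _ : ρ => 1))`; by `NE.card` `ρ` is empty, so `NE X of` (reindex by
`Equiv.sumEmpty`). That is `α : F_{k+1} ≃* F_{k+1}` with `lift X (α (of i)) = of i`, hence
`lift X (α y) = y` for all `y`, and `φ = α.symm` satisfies `φ y = lift X y`. -/
theorem exists_basis_aut {k : ℕ} (x : Fin k → FreeGroup (Fin (k + 1)))
    (u : FreeGroup (Fin (k + 1)))
    (hgen : Subgroup.closure (Set.range (Sum.elim x (fun _ : Fin 1 => u))) = ⊤) :
    ∃ φ : FreeGroup (Fin (k + 1)) ≃* FreeGroup (Fin (k + 1)),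
      (∀ l : Fin k, φ (FreeGroup.of l.castSucc) = x l) ∧ φ (FreeGroup.of (Fin.last k)) = u := by
  obtain ⟨X, hXl, hXu⟩ : ∃ X : Fin (k + 1) → FreeGroup (Fin (k + 1)),
      (∀ l : Fin k, X l.castSucc = x l) ∧ X (Fin.last k) = u :=
    ⟨fun i => Fin.lastCases (motive := fun _ => FreeGroup (Fin (k + 1))) u x i,
      fun l => Fin.lastCases_castSucc .., Fin.lastCases_last ..⟩
  have hX : Subgroup.closure (Set.range X) = ⊤ := by
    rw [eq_top_iff, ← hgen, Subgroup.closure_le]
    rintro _ ⟨i, rfl⟩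
    cases i with
    | inl l =>
      refine Subgroup.subset_closure ⟨l.castSucc, ?_⟩
      rw [hXl]
      rfl
    | inr l =>
      refine Subgroup.subset_closure ⟨Fin.last k, ?_⟩
      rw [hXu]
      rfl
  obtain ⟨ρ, hρ, hNE⟩ := nielsen X hX
  have hc := NE.card hNE
  rw [Nat.card_sum] at hc
  have hc0 : Nat.card ρ = 0 := by omega
  have hemp : IsEmpty ρ := Finite.card_eq_zero_iff.1 hc0
  obtain ⟨α, hα⟩ := hNE
  obtain ⟨β, hβ⟩ : ∃ β : FreeGroup (Fin (k + 1)) ≃* FreeGroup (Fin (k + 1)),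
      ∀ i, FreeGroup.lift X (β (FreeGroup.of i)) = FreeGroup.of i := by
    refine ⟨(FreeGroup.freeGroupCongr (Equiv.sumEmpty (Fin (k + 1)) ρ).symm).trans α,
      fun i => ?_⟩
    have h1 := hα (Sum.inl i)
    rw [MulEquiv.trans_apply]
    simpa using h1
  have hβ' : ∀ z, FreeGroup.lift X (β z) = z := by
    intro z
    have h2 : (FreeGroup.lift X).comp β.toMonoidHom =
        MonoidHom.id (FreeGroup (Fin (k + 1))) := by
      ext i
      simpa using hβ i
    exact DFunLike.congr_fun h2 z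
  have hφ : ∀ i, β.symm (FreeGroup.of i) = X i := by
    intro i
    have h3 := hβ' (β.symm (FreeGroup.of i))
    rw [MulEquiv.apply_symm_apply, FreeGroup.lift_apply_of] at h3
    exact h3.symm
  exact ⟨β.symm, fun l => by rw [hφ, hXl], by rw [hφ, hXu]⟩

/-- PROOF. The first coordinates generate `F_{k+1}`, and those of the third block are trivial, so
`exists_basis_aut` gives `φ` with `φ (of (castSucc l)) = x l`, `φ (of (last k)) = u`. Put
`T = Sum.elim (firstGens k h) (lastHom k h ∘ Sum.elim (fun _ : Fin 1 => (of 0, v)) (fun j =>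
(1, y j)))`. Then `t i = (φ (T i).1, (T i).2)` for all `i`. The map `(z, w) ↦ (φ z, w)` is an
automorphism, so `T` generates, `glue` gives `Std T`, and `Std.aut _ φ` the claim. -/
theorem mixed_core {κ : Type} [Finite κ] {k h : ℕ} (x : Fin k → FreeGroup (Fin (k + 1)))
    (u : FreeGroup (Fin (k + 1))) (v : FreeGroup (Fin h)) (y : κ → FreeGroup (Fin h))
    (hgen : Subgroup.closure (Set.range (Sum.elim
      (fun l : Fin k => ((x l, 1) : FreeGroup (Fin (k + 1)) × FreeGroup (Fin h)))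
      (Sum.elim (fun _ : Fin 1 => (u, v)) (fun j : κ => (1, y j))))) = ⊤) :
    Std (Sum.elim
      (fun l : Fin k => ((x l, 1) : FreeGroup (Fin (k + 1)) × FreeGroup (Fin h)))
      (Sum.elim (fun _ : Fin 1 => (u, v)) (fun j : κ => (1, y j)))) := by
  have hgen1 : Subgroup.closure (Set.range (Sum.elim x (fun _ : Fin 1 => u))) = ⊤ := by
    have h1 := congrArg (Subgroup.map
      (MonoidHom.fst (FreeGroup (Fin (k + 1))) (FreeGroup (Fin h)))) hgen
    rw [MonoidHom.map_closure, ← MonoidHom.range_eq_map,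
      MonoidHom.range_eq_top.2 Prod.fst_surjective] at h1
    rw [eq_top_iff, ← h1, Subgroup.closure_le]
    rintro _ ⟨_, ⟨i, rfl⟩, rfl⟩
    rcases i with l | (l | j)
    · exact Subgroup.subset_closure ⟨Sum.inl l, rfl⟩
    · exact Subgroup.subset_closure ⟨Sum.inr l, rfl⟩
    · exact one_mem _
  obtain ⟨φ, hφx, hφu⟩ := exists_basis_aut x u hgen1
  obtain ⟨R, hR⟩ : ∃ R : Fin 1 ⊕ κ → FreeGroup (Fin 1) × FreeGroup (Fin h),
      R = Sum.elim (fun _ : Fin 1 => (FreeGroup.of 0, v)) (fun j : κ => (1, y j)) := ⟨_, rfl⟩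
  obtain ⟨T, hT⟩ : ∃ T : Fin k ⊕ (Fin 1 ⊕ κ) → FreeGroup (Fin (k + 1)) × FreeGroup (Fin h),
      T = Sum.elim (firstGens k h) (lastHom k h ∘ R) := ⟨_, rfl⟩
  have hTt : (fun i => (φ (T i).1, (T i).2)) = Sum.elim
      (fun l : Fin k => ((x l, 1) : FreeGroup (Fin (k + 1)) × FreeGroup (Fin h)))
      (Sum.elim (fun _ : Fin 1 => (u, v)) (fun j : κ => (1, y j))) := by
    funext i
    rcases i with l | (l | j)
    · simp [hT, firstGens, hφx]
    · simp [hT, hR, lastHom, hφu]
    · simp [hT, hR, lastHom]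
  have hTgen : Subgroup.closure (Set.range T) = ⊤ := by
    rw [← hTt] at hgen
    have h1 := congrArg (Subgroup.map
      ((φ.symm.toMonoidHom).prodMap (MonoidHom.id (FreeGroup (Fin h))))) hgen
    have hsurj : Function.Surjective
        ((φ.symm.toMonoidHom).prodMap (MonoidHom.id (FreeGroup (Fin h)))) := by
      rintro ⟨a, b⟩
      exact ⟨(φ a, b), by simp⟩
    rw [MonoidHom.map_closure, ← MonoidHom.range_eq_map, MonoidHom.range_eq_top.2 hsurj] at h1
    rw [eq_top_iff, ← h1, Subgroup.closure_le]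
    rintro _ ⟨_, ⟨i, rfl⟩, rfl⟩
    refine Subgroup.subset_closure ⟨i, ?_⟩
    simp
  have hstd : Std T := by
    rw [hT]
    rw [hT] at hTgen
    exact glue R hTgen
  have h2 := hstd.aut φ
  rwa [hTt] at h2

end Pool.Agent.MPb5ead8
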