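import Pool.Agent.Lib.MP_b5ead8_al.MixA

/-!
# MP_b5ead8_al: generating tuples with one mixed entry
-/

set_option autoImplicit false

namespace Pool.Agent.MPb5ead8

open FreeGroup Function

/-- PROOF. By `hA` there is `eA : Fin k ≃ A` (`Finite.equivFinOfCardEq hA` and `symm`). Let
`B = {i // i ∉ A ∧ i ≠ i₀}`. The map `Fin k ⊕ (Fin 1 ⊕ B) → ι`, `Sum.elim (fun l => (eA l).1)
(Sum.elim (fun _ => i₀) (fun b => b.1))` is bijective (`hi₀`), `Equiv.ofBijective`; it reindexes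
`t` (`NE.reindex`) to the tuple of `mixed_core` with `x l = (t (eA l)).1`, `(u, v) = t i₀`,
`y b = (t b).2` (use `hA2`, `hB1`), which generates by `NE.closure_top`. Then `Std.of_NE`. -/
theorem mixed_card {ι : Type} [Finite ι] {k h : ℕ}
    (t : ι → FreeGroup (Fin (k + 1)) × FreeGroup (Fin h))
    (ht : Subgroup.closure (Set.range t) = ⊤) (i₀ : ι) (A : Set ι)
    (hi₀ : i₀ ∉ A) (hA2 : ∀ i ∈ A, (t i).2 = 1) (hB1 : ∀ i, i ∉ A → i ≠ i₀ → (t i).1 = 1)
    (hA : Nat.card A = k) : Std t := by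
  classical
  let eA : Fin k ≃ A := (Finite.equivFinOfCardEq hA).symm
  let m : Fin k ⊕ (Fin 1 ⊕ {i : ι // i ∉ A ∧ i ≠ i₀}) → ι :=
    Sum.elim (fun l => (eA l).1) (Sum.elim (fun _ => i₀) (fun b => b.1))
  have hm : Function.Bijective m := by
    constructor
    · rintro (l | l | b) (l' | l' | b') hab
      · have h1 : (eA l).1 = (eA l').1 := hab
        rw [eA.injective (Subtype.ext h1)]
      · have h1 : (eA l).1 = i₀ := hab
        exact absurd (h1 ▸ (eA l).2) hi₀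
      · have h1 : (eA l).1 = b'.1 := hab
        exact absurd (h1 ▸ (eA l).2) b'.2.1
      · have h1 : i₀ = (eA l').1 := hab
        exact absurd (h1 ▸ (eA l').2) hi₀
      · rw [Subsingleton.elim l l']
      · have h1 : i₀ = b'.1 := hab
        exact absurd h1.symm b'.2.2
      · have h1 : b.1 = (eA l').1 := hab
        exact absurd (h1 ▸ (eA l').2) b.2.1
      · have h1 : b.1 = i₀ := hab
        exact absurd h1 b.2.2
      · have h1 : b.1 = b'.1 := hab
        rw [Subtype.ext h1]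
    · intro i
      by_cases hi : i ∈ A
      · refine ⟨Sum.inl (eA.symm ⟨i, hi⟩), ?_⟩
        change (eA (eA.symm ⟨i, hi⟩)).1 = i
        rw [Equiv.apply_symm_apply]
      · by_cases hi' : i = i₀
        · exact ⟨Sum.inr (Sum.inl 0), hi'.symm⟩
        · exact ⟨Sum.inr (Sum.inr ⟨i, hi, hi'⟩), rfl⟩
  have h1 : NE t (t ∘ m) := NE.reindex t (Equiv.ofBijective m hm)
  have h2 : t ∘ m = Sum.elim
      (fun l : Fin k => (((t (eA l).1).1, 1) : FreeGroup (Fin (k + 1)) × FreeGroup (Fin h)))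
      (Sum.elim (fun _ : Fin 1 => ((t i₀).1, (t i₀).2))
        (fun b : {i : ι // i ∉ A ∧ i ≠ i₀} => (1, (t b.1).2))) := by
    funext x
    rcases x with l | l | b
    · exact Prod.ext rfl (hA2 _ (eA l).2)
    · rfl
    · exact Prod.ext (hB1 b.1 b.2.1 b.2.2) rfl
  have h3 := h1.closure_top ht
  rw [h2] at h1 h3
  exact Std.of_NE h1 (mixed_core _ _ _ _ h3)

/-- PROOF. The first coordinates of the entries in `A ∪ {i₀}` generate `F_g` (image of `⊤` under
`MonoidHom.fst`; the other first coordinates are `1`); apply `rank_le` to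
`fun o : Option A => o.elim (t i₀).1 (fun a => (t a).1)` (`Nat.card (Option A) = Nat.card A + 1`,
`Finite.card_option`). -/
theorem le_card_add_one {ι : Type} [Finite ι] {g h : ℕ}
    (t : ι → FreeGroup (Fin g) × FreeGroup (Fin h))
    (ht : Subgroup.closure (Set.range t) = ⊤) (i₀ : ι) (A : Set ι)
    (hB1 : ∀ i, i ∉ A → i ≠ i₀ → (t i).1 = 1) : g ≤ Nat.card A + 1 := by
  classical
  let f : Option A → FreeGroup (Fin g) := fun o => o.elim (t i₀).1 (fun a => (t a.1).1)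
  have h1 : Subgroup.closure (Set.range f) = ⊤ := by
    have h2 : Subgroup.map (MonoidHom.fst (FreeGroup (Fin g)) (FreeGroup (Fin h)))
        (Subgroup.closure (Set.range t)) = ⊤ := by
      rw [ht, ← MonoidHom.range_eq_map]
      exact MonoidHom.range_eq_top.2 Prod.fst_surjective
    rw [MonoidHom.map_closure] at h2
    rw [eq_top_iff, ← h2, Subgroup.closure_le]
    rintro _ ⟨_, ⟨i, rfl⟩, rfl⟩
    by_cases hi : i = i₀
    · rw [hi]
      exact Subgroup.subset_closure ⟨none, rfl⟩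
    · by_cases hA : i ∈ A
      · exact Subgroup.subset_closure ⟨some ⟨i, hA⟩, rfl⟩
      · have h3 : (MonoidHom.fst (FreeGroup (Fin g)) (FreeGroup (Fin h))) (t i) = 1 :=
          hB1 i hA hi
        rw [h3]
        exact one_mem _
  have h3 := rank_le f h1
  rwa [Finite.card_option] at h3

theorem swap_gen {ι : Type} {g h : ℕ} (t : ι → FreeGroup (Fin g) × FreeGroup (Fin h))
    (ht : Subgroup.closure (Set.range t) = ⊤) :
    Subgroup.closure (Set.range (Prod.swap ∘ t)) = ⊤ := by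
  have h1 : Prod.swap ∘ t = (MulEquiv.prodComm : FreeGroup (Fin g) × FreeGroup (Fin h) ≃*
      FreeGroup (Fin h) × FreeGroup (Fin g)).toMonoidHom ∘ t := rfl
  rw [h1, Set.range_comp, ← MonoidHom.map_closure, ht, ← MonoidHom.range_eq_map]
  exact MonoidHom.range_eq_top.2 (MulEquiv.surjective _)

/-- PROOF. Let `A = {i | i ≠ i₀ ∧ (t i).2 = 1}` and `B = {i | i ≠ i₀ ∧ i ∉ A}`; by `hpure`
`(t i).1 = 1` for `i ∈ B`. Then `|A| + |B| + 1 = g + h`. `le_card_add_one` for `t`, `A` gives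
`g ≤ |A| + 1`; for `Prod.swap ∘ t` (`swap_gen`) and `B` it gives `h ≤ |B| + 1`. If
`|A| + 1 = g`, write `g = k + 1` and apply `mixed_card` with `A`. Otherwise `g ≤ |A|`, hence
`|B| + 1 = h`; write `h = k + 1` and apply `mixed_card` to `Prod.swap ∘ t` with `B`, then
`Std.swap`. -/
theorem mixed {ι : Type} [Finite ι] {g h : ℕ}
    (hcard : Nat.card ι = g + h) (t : ι → FreeGroup (Fin g) × FreeGroup (Fin h))
    (ht : Subgroup.closure (Set.range t) = ⊤) (i₀ : ι)
    (hpure : ∀ i, i ≠ i₀ → (t i).1 = 1 ∨ (t i).2 = 1) : Std t := by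
  classical
  obtain ⟨A, hA⟩ : ∃ A : Set ι, ∀ i, i ∈ A ↔ i ≠ i₀ ∧ (t i).2 = 1 :=
    ⟨{i | i ≠ i₀ ∧ (t i).2 = 1}, fun i => Iff.rfl⟩
  obtain ⟨B, hB⟩ : ∃ B : Set ι, ∀ i, i ∈ B ↔ i ≠ i₀ ∧ i ∉ A :=
    ⟨{i | i ≠ i₀ ∧ i ∉ A}, fun i => Iff.rfl⟩
  have hA0 : i₀ ∉ A := fun h => ((hA i₀).1 h).1 rfl
  have hB0 : i₀ ∉ B := fun h => ((hB i₀).1 h).1 rfl
  have hA2 : ∀ i ∈ A, (t i).2 = 1 := fun i hi => ((hA i).1 hi).2
  have hB2 : ∀ i ∈ B, (t i).1 = 1 := by
    intro i hi
    obtain ⟨h1, h2⟩ := (hB i).1 hi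
    rcases hpure i h1 with h3 | h3
    · exact h3
    · exact absurd ((hA i).2 ⟨h1, h3⟩) h2
  have hAB : ∀ i, i ∉ A → i ≠ i₀ → i ∈ B := fun i h1 h2 => (hB i).2 ⟨h2, h1⟩
  have hBA : ∀ i, i ∉ B → i ≠ i₀ → i ∈ A := fun i h1 h2 => by
    by_contra h3
    exact h1 ((hB i).2 ⟨h2, h3⟩)
  have hsum : Nat.card A + Nat.card B + 1 = g + h := by
    have hdis : Disjoint A B := Set.disjoint_left.2 fun i h1 h2 => ((hB i).1 h2).2 h1
    have huniv : insert i₀ (A ∪ B) = Set.univ := by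
      ext i
      simp only [Set.mem_insert_iff, Set.mem_union, Set.mem_univ, iff_true]
      by_cases h1 : i = i₀
      · exact Or.inl h1
      · by_cases h2 : i ∈ A
        · exact Or.inr (Or.inl h2)
        · exact Or.inr (Or.inr (hAB i h2 h1))
    have h1 : i₀ ∉ A ∪ B := by
      rintro (h1 | h1)
      · exact hA0 h1
      · exact hB0 h1
    have h2 := Set.ncard_insert_of_notMem h1 (Set.toFinite _)
    rw [huniv, Set.ncard_univ, Set.ncard_union_eq hdis (Set.toFinite _) (Set.toFinite _),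
      hcard] at h2
    rw [Nat.card_coe_set_eq, Nat.card_coe_set_eq]
    exact h2.symm
  have hg : g ≤ Nat.card A + 1 :=
    le_card_add_one t ht i₀ A fun i h1 h2 => hB2 i (hAB i h1 h2)
  have hh : h ≤ Nat.card B + 1 :=
    le_card_add_one (Prod.swap ∘ t) (swap_gen t ht) i₀ B fun i h1 h2 => hA2 i (hBA i h1 h2)
  by_cases h1 : Nat.card A + 1 = g
  · obtain ⟨k, hk⟩ : ∃ k, g = k + 1 := ⟨_, h1.symm⟩
    subst hk
    exact mixed_card t ht i₀ A hA0 hA2 (fun i h2 h3 => hB2 i (hAB i h2 h3)) (by omega)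
  · have h2 : Nat.card B + 1 = h := by omega
    obtain ⟨k, hk⟩ : ∃ k, h = k + 1 := ⟨_, h2.symm⟩
    subst hk
    exact Std.swap (mixed_card (Prod.swap ∘ t) (swap_gen t ht) i₀ B hB0
      (fun i hi => hB2 i hi) (fun i h3 h4 => hA2 i (hBA i h3 h4)) (by omega))

end Pool.Agent.MPb5ead8
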