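import Pool.Agent.Lib.MP_b5ead8_al.NMin

/-!
# MP_b5ead8_al: first Nielsen property of minimal tuples
-/

set_option autoImplicit false

namespace Pool.Agent.MPb5ead8

open FreeGroup Function

/-- Replacing the entry of `b` by the product of two signed entries (with different indices) is a
Nielsen transformation. PROOF. Put `g = V t a`; as `a.1 ≠ b.1`,
`g ∈ Subgroup.closure (t '' {j | j ≠ b.1})`. If `b.2 = true`: `V t b = t b.1` and
`NE.update_mul_left t b.1 hg (t b.1)` together with `Function.update_eq_self` is the claim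
`NE t (update t b.1 (g * t b.1))`. If `b.2 = false`: `V t b = (t b.1)⁻¹`; first
`NE.inv t b.1`, or `NE.update_inv`, then the left multiplication on the entry
`(t b.1)⁻¹`. -/
theorem NE.prod_entry {ι G : Type} [Group G] [DecidableEq ι] (t : ι → G) {a b : ι × Bool}
    (hab : a.1 ≠ b.1) : NE t (Function.update t b.1 (V t a * V t b)) := by
  have hg : V t a ∈ Subgroup.closure (t '' {j | j ≠ b.1}) := by
    have h0 : t a.1 ∈ Subgroup.closure (t '' {j | j ≠ b.1}) :=
      Subgroup.subset_closure ⟨a.1, hab, rfl⟩
    unfold V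
    split_ifs
    · exact h0
    · exact inv_mem h0
  have h1 : NE t (Function.update t b.1 (V t b)) := by
    unfold V
    split_ifs
    · rw [Function.update_eq_self]; exact NE.refl t
    · exact NE.inv t b.1
  exact h1.trans (NE.update_mul_left t b.1 hg (V t b))

/-- First Nielsen property. PROOF. If `a.1 = b.1`, then `b = a` since `b ≠ bar a`; either
`V t a = 1` (then `cp _ _ ≤ norm 1 = 0`, `cp_le_right`) or `two_cp_lt` applies. If `a.1 ≠ b.1`:
`NE.prod_entry t hab` and `Minimal.update` give `|V t b| = |t b.1| ≤ |V t a * V t b|`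
(`norm_inv_eq` if `b.2 = false`), and by `norm_mul_cp`
`|V t a * V t b| + 2 cp = |V t a| + |V t b|`, hence `2 cp ≤ |V t a|`. For the other inequality
apply the same to the pair `bar b, bar a` (`V_bar`, `bar_bar`): `V t (bar b) * V t (bar a) =
(V t a * V t b)⁻¹`, and `cp (V t (bar b))⁻¹ (V t (bar a)) = cp (V t b) (V t a)⁻¹ =
cp (V t a)⁻¹ (V t b)` (`cp_comm`). -/
theorem n1 {ι : Type} [Fintype ι] {h : ℕ} {t : ι → FreeGroup (Fin h)} (ht : Minimal t)
    {a b : ι × Bool} (hab : b ≠ bar a) :
    2 * cp (V t a)⁻¹ (V t b) ≤ (V t a).norm ∧ 2 * cp (V t a)⁻¹ (V t b) ≤ (V t b).norm := by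
  classical
  have hnV : ∀ c : ι × Bool, (V t c).norm = (t c.1).norm := by
    intro c
    unfold V
    split_ifs
    · rfl
    · exact norm_inv_eq
  have key : ∀ a b : ι × Bool, a.1 ≠ b.1 → 2 * cp (V t a)⁻¹ (V t b) ≤ (V t a).norm := by
    intro a b hab
    have h1 : (t b.1).norm ≤ (V t a * V t b).norm := by
      rcases Minimal.update ht b.1 _ (NE.prod_entry t hab) with h1 | h1
      · exact h1.le
      · exact h1.1.le
    have h2 := norm_mul_cp (V t a) (V t b)
    have h3 := hnV b
    omega
  by_cases he : a.1 = b.1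
  · have hba : b = a := by
      rcases a with ⟨i, x⟩
      rcases b with ⟨j, y⟩
      simp only at he
      subst he
      cases x <;> cases y <;> simp [bar] at hab ⊢
    subst hba
    by_cases h1 : V t b = 1
    · have h2 := cp_le_left (V t b)⁻¹ (V t b)
      rw [norm_inv_eq, h1, FreeGroup.norm_one] at h2
      rw [h1]
      omega
    · have := two_cp_lt h1
      omega
  · refine ⟨key a b he, ?_⟩
    have h2 := key (bar b) (bar a) (fun hh => he hh.symm)
    rw [V_bar, V_bar, inv_inv, cp_comm, norm_inv_eq] at h2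
    exact h2

end Pool.Agent.MPb5ead8
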