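import Pool.Agent.Lib.MP_b5ead8_al.Defs

/-!
# MP_b5ead8_al: the second weight drops
-/

set_option autoImplicit false

namespace Pool.Agent.MPb5ead8

open FreeGroup Function List

/-- `norm_inv` for the second weight. PROOF: unfold `sec`, `norm_inv_eq`, `inv_inv`,
`Nat.add_comm`. -/
theorem sec_inv {h : ℕ} (x : FreeGroup (Fin h)) : sec h x⁻¹ = sec h x := by
  unfold sec
  rw [norm_inv_eq, inv_inv, Nat.add_comm]

/-- If `x = p q⁻¹` with `|p| = |q| = m`, `y = q Y` reduced and the code of `p` is smaller than the
code of `q`, then `x y = p Y` has the length of `y` and a smaller second weight.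
PROOF. `norm_mul_cp x y` gives the norm: `|xy| + 2m = 2m + |y|`. Put `n = |y|`,
`k = (n + 1) / 2`; so `m ≤ k`, `k ≤ n - m`. Apply `toWord_inv_mul x⁻¹ y`: lists `P X Y` with
`x⁻¹.toWord = P ++ X`, `y.toWord = P ++ Y`, `P.length = m`, `(x * y).toWord = invRev X ++ Y`
(`inv_inv`). As `|x⁻¹| = 2m` (`norm_inv_eq`), `X.length = m`; `x.toWord = invRev (P ++ X) =
invRev X ++ invRev P` (`toWord_inv`, `invRev_append`, `invRev_invRev`), so
`x.toWord.take m = invRev X` and `x⁻¹.toWord.take m = P`: hypothesis `hcode` says
`code _ _ (invRev X) < code _ _ P`.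
First summand of `sec`: `take k (P ++ Y) = P ++ take (k - m) Y` and
`take k (invRev X ++ Y) = invRev X ++ take (k - m) Y` (`List.take_append` or
`take_append_eq_append_take`); by `code_append` the code of the second is
`code (invRev X) * B ^ l + c`, of the first `code P * B ^ l + c` with the same `l`, `c` and
`B = 2 h + 1 > 0`: strictly smaller.
Second summand: `(x * y)⁻¹.toWord = invRev (invRev X ++ Y) = invRev Y ++ X` and
`y⁻¹.toWord = invRev Y ++ invRev P`; `take k` of both is `take k (invRev Y)` because
`k ≤ n - m = (invRev Y).length` (`take_append_of_le_length`). -/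
theorem sec_drop {h m : ℕ} (x y : FreeGroup (Fin h)) (hx : x.norm = 2 * m)
    (hm : cp x⁻¹ y = m) (hy : 2 * m ≤ y.norm)
    (hcode : hc h m x < hc h m x⁻¹) :
    (x * y).norm = y.norm ∧ sec h (x * y) < sec h y := by
  obtain ⟨P, X, Y, h1, h2, h3, h4⟩ := toWord_inv_mul x⁻¹ y
  rw [inv_inv] at h4
  rw [hm] at h3
  have hX : X.length = m := by
    have h5 : x⁻¹.norm = 2 * m := by rw [norm_inv_eq, hx]
    rw [FreeGroup.norm, h1, length_append] at h5
    omega
  have hY : m + Y.length = y.norm := by
    rw [FreeGroup.norm, h2, length_append, h3]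
  have hn : (x * y).norm = y.norm := by
    rw [FreeGroup.norm, h4, length_append, invRev_length]
    omega
  have hxw : x.toWord = invRev X ++ invRev P := by
    have h5 : (x⁻¹)⁻¹.toWord = invRev X ++ invRev P := by
      rw [toWord_inv, h1, invRev_append]
    rwa [inv_inv] at h5
  have hc1 : hc h m x = code (2 * h + 1) (dig h) (invRev X) := by
    unfold hc
    rw [hxw, take_append_of_le_length (by rw [invRev_length]; omega),
      take_of_length_le (by rw [invRev_length]; omega)]
  have hc2 : hc h m x⁻¹ = code (2 * h + 1) (dig h) P := by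
    unfold hc
    rw [h1, take_append_of_le_length (by omega), take_of_length_le (by omega)]
  rw [hc1, hc2] at hcode
  have hw1 : (x * y)⁻¹.toWord = invRev Y ++ X := by
    rw [toWord_inv, h4, invRev_append, invRev_invRev]
  have hw2 : y⁻¹.toWord = invRev Y ++ invRev P := by
    rw [toWord_inv, h2, invRev_append]
  obtain ⟨k, hk⟩ : ∃ k, k = (y.norm + 1) / 2 := ⟨_, rfl⟩
  have hk1 : m ≤ k := by omega
  have hk2 : k ≤ Y.length := by omega
  refine ⟨hn, ?_⟩
  unfold sec
  rw [hn, ← hk]
  have e1 : hc h k (x * y)⁻¹ = hc h k y⁻¹ := by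
    unfold hc
    rw [hw1, hw2, take_append_of_le_length (by rw [invRev_length]; omega),
      take_append_of_le_length (by rw [invRev_length]; omega)]
  have e2 : hc h k (x * y) < hc h k y := by
    unfold hc
    rw [h4, h2, take_append, take_append, take_of_length_le (by rw [invRev_length]; omega),
      take_of_length_le (l := P) (by omega), invRev_length, hX, h3, code_append, code_append]
    have h5 : 0 < (2 * h + 1) ^ (take (k - m) Y).length := pow_pos (by omega) _
    exact Nat.add_lt_add_right (Nat.mul_lt_mul_of_pos_right hcode h5) _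
  rw [e1]
  exact Nat.add_lt_add_right e2 _

end Pool.Agent.MPb5ead8
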