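import Pool.Agent.Lib.MP_b5ead8_al.N1
import Pool.Agent.Lib.MP_b5ead8_al.NSec

/-!
# MP_b5ead8_al: second Nielsen property of minimal tuples
-/

set_option autoImplicit false

namespace Pool.Agent.MPb5ead8

open FreeGroup Function

/-- In a minimal tuple, no entry `V t b` which is cancelled up to half of its length from the left
against `V t c` has a first half of smaller code than the first half of its inverse.
PROOF. `b.1 ≠ c.1`: otherwise `c = b` (as `c ≠ bar b`) and `two_cp_lt` gives
`2 m < |V t b| = 2 m` (`V t b ≠ 1` because otherwise `hc h m (V t b) = hc h m (V t b)⁻¹`).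
`n1 ht hbc` gives `2 m ≤ |V t c|`. `sec_drop (V t b) (V t c)` with `hm` gives
`|V t b * V t c| = |V t c|` and `sec (V t b * V t c) < sec (V t c)`. By `NE.prod_entry` and
`Minimal.update` for the index `c.1` (with `|t c.1| = |V t c|` by `norm_inv_eq` and
`sec (t c.1) = sec (V t c)` by `sec_inv`) this contradicts minimality. -/
theorem n2_aux {ι : Type} [Fintype ι] {h m : ℕ} {t : ι → FreeGroup (Fin h)} (ht : Minimal t)
    {b c : ι × Bool} (hbc : c ≠ bar b) (hb : (V t b).norm = 2 * m)
    (hm : cp (V t b)⁻¹ (V t c) = m) : hc h m (V t b)⁻¹ ≤ hc h m (V t b) := by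
  classical
  by_contra hlt
  push Not at hlt
  have hne : V t b ≠ 1 := by
    intro h1
    rw [h1, inv_one] at hlt
    exact lt_irrefl _ hlt
  have hbc1 : b.1 ≠ c.1 := by
    intro he
    have hcb : c = b := by
      rcases b with ⟨i, x⟩
      rcases c with ⟨j, y⟩
      simp only at he
      subst he
      cases x <;> cases y <;> simp [bar] at hbc ⊢
    rw [hcb] at hm
    have := two_cp_lt hne
    omega
  have h1 := (n1 ht hbc).2
  rw [hm] at h1
  obtain ⟨h2, h3⟩ := sec_drop (V t b) (V t c) hb hm h1 hlt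
  have hnc : (V t c).norm = (t c.1).norm := by
    unfold V
    split_ifs
    · rfl
    · exact norm_inv_eq
  have hsc : sec h (V t c) = sec h (t c.1) := by
    unfold V
    split_ifs
    · rfl
    · exact sec_inv _
  rcases Minimal.update ht c.1 _ (NE.prod_entry t hbc1) with h4 | h4
  · omega
  · omega

/-- Second Nielsen property. PROOF. By `n1` both `2 cp (V t a)⁻¹ (V t b) ≤ |V t b|` and
`2 cp (V t b)⁻¹ (V t c) ≤ |V t b|`; so if the claim fails, then `|V t b| = 2 m` with
`m = cp (V t a)⁻¹ (V t b) = cp (V t b)⁻¹ (V t c)`. `n2_aux ht hbc` gives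
`hc h m (V t b)⁻¹ ≤ hc h m (V t b)`; `n2_aux` for the pair `bar b, bar a` (`V_bar`, `inv_inv`,
`bar_bar`; `cp (V t b) (V t a)⁻¹ = m` by `cp_comm`; `bar a ≠ bar (bar b) = b` since `b ≠ bar a`)
gives `hc h m (V t b) ≤ hc h m (V t b)⁻¹`. So the codes agree and by `code_inj` (with `dig_lt`,
`dig_inj`, both lists of length `m`) the first `m` letters of `V t b` and of `(V t b)⁻¹` agree:
by `le_lcp_iff`, `m ≤ cp (V t b)⁻¹ (V t b)`, but `two_cp_lt hb` gives
`2 cp (V t b)⁻¹ (V t b) < |V t b| = 2 m`. Contradiction. -/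
theorem n2 {ι : Type} [Fintype ι] {h : ℕ} {t : ι → FreeGroup (Fin h)} (ht : Minimal t)
    {a b c : ι × Bool} (hb : V t b ≠ 1) (hab : b ≠ bar a) (hbc : c ≠ bar b) :
    cp (V t a)⁻¹ (V t b) + cp (V t b)⁻¹ (V t c) < (V t b).norm := by
  by_contra hlt
  push Not at hlt
  have h1 := (n1 ht hab).2
  have h2 := (n1 ht hbc).1
  obtain ⟨m, hm⟩ : ∃ m, m = cp (V t b)⁻¹ (V t c) := ⟨_, rfl⟩
  have hbn : (V t b).norm = 2 * m := by omega
  have hma : cp (V t a)⁻¹ (V t b) = m := by omega
  have h3 := n2_aux ht hbc hbn hm.symm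
  have h4 : hc h m (V t b) ≤ hc h m (V t b)⁻¹ := by
    have h5 := n2_aux (m := m) (b := bar b) (c := bar a) ht
      (by
        rw [bar_bar]
        intro he
        exact hab he.symm)
      (by rw [V_bar, norm_inv_eq, hbn])
      (by rw [V_bar, V_bar, inv_inv, cp_comm, hma])
    rwa [V_bar, inv_inv] at h5
  have h5 : hc h m (V t b)⁻¹ = hc h m (V t b) := le_antisymm h3 h4
  have h6 : ((V t b)⁻¹).toWord.take m = (V t b).toWord.take m := by
    apply code_inj (B := 2 * h + 1) (dig_lt h) (dig_inj h)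
    · rw [List.length_take, List.length_take]
      have e1 : ((V t b)⁻¹).toWord.length = 2 * m := by
        rw [← hbn, ← norm_inv_eq]; rfl
      have e2 : (V t b).toWord.length = 2 * m := by
        rw [← hbn]; rfl
      rw [e1, e2]
    · exact h5
  have h7 : m ≤ cp (V t b)⁻¹ (V t b) := by
    unfold cp
    rw [le_lcp_iff]
    refine ⟨?_, ?_, h6⟩
    · have e1 : ((V t b)⁻¹).toWord.length = 2 * m := by
        rw [← hbn, ← norm_inv_eq]; rfl
      omega
    · have e2 : (V t b).toWord.length = 2 * m := by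
        rw [← hbn]; rfl
      omega
  have h8 := two_cp_lt hb
  omega

end Pool.Agent.MPb5ead8
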