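import Pool.Agent.Lib.MP_b5ead8_al.Defs

/-!
# MP_b5ead8_al: lengths of products in a Nielsen reduced system
-/

set_option autoImplicit false

namespace Pool.Agent.MPb5ead8

open FreeGroup Function

variable {α : Type} [DecidableEq α]

/-- PROOF. `norm_inv_mul (x * y) x` : `|(x * y)⁻¹ * x| + 2 cp (x * y) x = |x * y| + |x|`, where
`(x * y)⁻¹ * x = y⁻¹` has norm `|y|`; `norm_mul_cp x y` :
`|x * y| + 2 cp x⁻¹ y = |x| + |y|`. Add the equations (omega). -/
theorem cp_mul_left (x y : FreeGroup α) : cp (x * y) x + cp x⁻¹ y = x.norm := by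
  have h1 := norm_inv_mul (x * y) x
  have h2 := norm_mul_cp x y
  have h3 : (x * y)⁻¹ * x = y⁻¹ := by group
  rw [h3, norm_inv_eq] at h1
  omega

/-- Ultrametric inequality in the isosceles form. PROOF: from `cp_ultra` and `cp_comm`:
`cp x z ≥ min (cp x y) (cp y z) = cp x y`, and if `cp x z > cp x y`, then
`cp x y ≥ min (cp x z) (cp z y) > cp x y`. -/
theorem cp_isosceles {x y z : FreeGroup α} (hlt : cp x y < cp y z) : cp x z = cp x y := by
  apply le_antisymm
  · by_contra hc
    push Not at hc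
    have h1 : cp x y + 1 ≤ cp z y := by rw [cp_comm z y]; exact hlt
    have h2 : cp x y + 1 ≤ cp x y := cp_ultra (Nat.succ_le_of_lt hc) h1
    omega
  · exact cp_ultra le_rfl hlt.le

theorem nprod_cp_self (x : FreeGroup α) : x.norm ≤ cp x x :=
  (le_lcp_iff _ _ _).2 ⟨le_rfl, le_rfl, rfl⟩

theorem nprod_pos {x : FreeGroup α} (hx : x ≠ 1) : 0 < x.norm := by
  rcases Nat.eq_zero_or_pos x.norm with h | h
  · exact absurd (norm_eq_zero.1 h) hx
  · exact h

/-- The cancellation between the first two entries of a list. -/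
def cc {ι : Type} (W : ι × Bool → FreeGroup α) : List (ι × Bool) → ℕ
  | a :: b :: _ => cp (W a)⁻¹ (W b)
  | _ => 0

/-- The product estimate. PROOF by induction on `l` (generalizing `a`). For `l = []` the product
is `W a`, `cc = 0` and `cp (W a) (W a) = |W a|` (`le_lcp_iff`). For `l = b :: l'` write
`x = W a * x'`, `x' = ((b :: l').map W).prod`, `c = cp (W a)⁻¹ (W b)` (this is `cc W (a :: b ::
l')`) and `c' = cc W (b :: l')`. Induction hypothesis for `b :: l'`:
(i) `|W b| ≤ cp x' (W b) + c'`, (ii) `l'.length + |W b| ≤ |x'| + c'`.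
Moreover `c + c' < |W b|`: if `l' = []` then `c' = 0` and `2 c ≤ |W b|` by `h1`
with `|W b| > 0` (`W b ≠ 1`, `norm_eq_zero`); if `l' = d :: _` this is `h2 a b d`.
Hence `c < cp (W b) x'` and `cp (W a)⁻¹ x' = c` by `cp_isosceles`. So `|x| + 2 c = |W a| + |x'|`
(`norm_mul_cp`) and `cp x (W a) + c = |W a|` (`cp_mul_left`): this is (i) for `a :: l`; and
`|x| + c = |W a| + |x'| - c ≥ |W a| + l'.length + |W b| - c' - c ≥ |W a| + l'.length + 1`:
this is (ii). -/
theorem prod_est {ι : Type} (W : ι × Bool → FreeGroup α)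
    (h1 : ∀ a b : ι × Bool, b ≠ bar a → 2 * cp (W a)⁻¹ (W b) ≤ (W b).norm)
    (h2 : ∀ a b c : ι × Bool, W b ≠ 1 → b ≠ bar a → c ≠ bar b →
      cp (W a)⁻¹ (W b) + cp (W b)⁻¹ (W c) < (W b).norm)
    (l : List (ι × Bool)) (a : ι × Bool) (hl : List.IsChain (fun a b => b ≠ bar a) (a :: l))
    (hne : ∀ b ∈ a :: l, W b ≠ 1) :
    (W a).norm ≤ cp ((a :: l).map W).prod (W a) + cc W (a :: l) ∧
      l.length + (W a).norm ≤ ((a :: l).map W).prod.norm + cc W (a :: l) := by
  induction l generalizing a with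
  | nil =>
    simp only [List.map_cons, List.map_nil, List.prod_cons, List.prod_nil, mul_one, cc,
      List.length_nil, Nat.zero_add, Nat.add_zero]
    exact ⟨nprod_cp_self _, le_rfl⟩
  | cons b l ih =>
    obtain ⟨hab, hl'⟩ := List.isChain_cons_cons.1 hl
    obtain ⟨ih1, ih2⟩ := ih b hl' fun c hc => hne c (List.mem_cons_of_mem _ hc)
    have hb : W b ≠ 1 := hne b (by simp)
    have hbpos := nprod_pos hb
    set x' := ((b :: l).map W).prod with hx'
    have hprod : ((a :: b :: l).map W).prod = W a * x' := by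
      rw [hx', List.map_cons, List.prod_cons]
    have hcc : cc W (a :: b :: l) = cp (W a)⁻¹ (W b) := rfl
    have hsum : cp (W a)⁻¹ (W b) + cc W (b :: l) < (W b).norm := by
      cases l with
      | nil =>
        have := h1 a b hab
        simp only [cc]
        omega
      | cons d l =>
        exact h2 a b d hb hab (List.isChain_cons_cons.1 hl').1
    have hlt : cp (W a)⁻¹ (W b) < cp (W b) x' := by
      rw [cp_comm (W b) x']
      omega
    have hiso := cp_isosceles hlt
    have h3 := norm_mul_cp (W a) x'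
    have h4 := cp_mul_left (W a) x'
    rw [hprod, hcc]
    rw [hiso] at h3 h4
    constructor
    · omega
    · rw [List.length_cons]
      omega

/-- PROOF. For `l = []` trivial. For `a :: l` use `prod_est` (ii) and
`cc W (a :: l) < |W a|`: `cc` is `0` or `cp (W a)⁻¹ (W b)` with `b ≠ bar a`, and
`2 cp ≤ |W a|` by `h1'`, `|W a| > 0`. -/
theorem prod_norm {ι : Type} (W : ι × Bool → FreeGroup α)
    (h1' : ∀ a b : ι × Bool, b ≠ bar a → 2 * cp (W a)⁻¹ (W b) ≤ (W a).norm)
    (h1 : ∀ a b : ι × Bool, b ≠ bar a → 2 * cp (W a)⁻¹ (W b) ≤ (W b).norm)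
    (h2 : ∀ a b c : ι × Bool, W b ≠ 1 → b ≠ bar a → c ≠ bar b →
      cp (W a)⁻¹ (W b) + cp (W b)⁻¹ (W c) < (W b).norm)
    (l : List (ι × Bool)) (hl : List.IsChain (fun a b => b ≠ bar a) l)
    (hne : ∀ b ∈ l, W b ≠ 1) : l.length ≤ (l.map W).prod.norm := by
  cases l with
  | nil => simp
  | cons a l =>
    obtain ⟨-, h3⟩ := prod_est W h1 h2 l a hl hne
    have hpos := nprod_pos (hne a (by simp))
    have hcc : cc W (a :: l) < (W a).norm := by
      cases l with
      | nil => exact hpos
      | cons b l =>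
        have := h1' a b (List.isChain_cons_cons.1 hl).1
        show cp (W a)⁻¹ (W b) < (W a).norm
        omega
    rw [List.length_cons]
    omega

end Pool.Agent.MPb5ead8
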