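import Pool.Agent.Lib.MP_b5ead8_al.N2
import Pool.Agent.Lib.MP_b5ead8_al.NProd

/-!
# MP_b5ead8_al: the nontrivial entries of a minimal tuple satisfy `|w(r)| ≥ |w|`
-/

set_option autoImplicit false

namespace Pool.Agent.MPb5ead8

open FreeGroup Function

/-- PROOF. Write `w = mk w.toWord` (`mk_toWord`), so that `lift r w` is the product of
`w.toWord.map (fun x => cond x.2 (r x.1) (r x.1)⁻¹)` (`lift_mk`), which is the product of
`(w.toWord.map (fun x => (x.1.1, x.2))).map (V t)`. Apply `prod_norm (V t)` with `n1 ht`,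
`n2 ht`; the list `w.toWord.map (fun x => (x.1.1, x.2))` is a chain for `b ≠ bar a`, because
`w.toWord` is reduced (`isReduced_toWord`, `IsReduced L = IsChain (fun a b => a.1 = b.1 →
a.2 = b.2) L`, `List.isChain_map`) and the inclusion of the subtype is injective; its signed
entries are nontrivial because `t s ≠ 1` for `s` in the subtype. -/
theorem norm_lift_ge {ι : Type} [Fintype ι] [DecidableEq ι] {h : ℕ} {t : ι → FreeGroup (Fin h)}
    (ht : Minimal t) (w : FreeGroup {i : ι // t i ≠ 1}) :
    w.norm ≤ (FreeGroup.lift (fun s : {i : ι // t i ≠ 1} => t s.1) w).norm := by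
  have hlen : (w.toWord.map (fun x => ((x.1.1, x.2) : ι × Bool))).length = w.norm := by
    rw [List.length_map]; rfl
  have hprod : FreeGroup.lift (fun s : {i : ι // t i ≠ 1} => t s.1) w =
      ((w.toWord.map (fun x => ((x.1.1, x.2) : ι × Bool))).map (V t)).prod := by
    conv_lhs => rw [← mk_toWord (x := w), lift_mk]
    rw [List.map_map]
    congr 1
    apply List.map_congr_left
    rintro ⟨s, b⟩ _
    cases b <;> simp [V]
  rw [hprod, ← hlen]
  apply prod_norm (V t) (fun a b hab => (n1 ht hab).1) (fun a b hab => (n1 ht hab).2)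
    (fun a b c hb hab hbc => n2 ht hb hab hbc)
  · rw [List.isChain_map]
    have hr : IsReduced w.toWord := isReduced_toWord
    refine List.IsChain.imp ?_ hr
    rintro ⟨x, c⟩ ⟨y, d⟩ hxy heq
    simp only [bar, Prod.mk.injEq] at heq
    have h1 : x = y := Subtype.ext heq.1.symm
    have h2 : c = d := hxy h1
    rw [h2] at heq
    cases d <;> simp at heq
  · intro b hb
    rw [List.mem_map] at hb
    obtain ⟨x, _, rfl⟩ := hb
    have hx := x.1.2
    unfold V
    simp only
    split_ifs
    · exact hx
    · exact inv_ne_one.mpr hx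

end Pool.Agent.MPb5ead8
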