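import Pool.Agent.Lib.MP_b5ead8_al.NE

/-!
# MP_b5ead8_al: a generating tuple with `|w(r)| ≥ |w|` consists of the letters
-/

set_option autoImplicit false

namespace Pool.Agent.MPb5ead8

open FreeGroup Function

private theorem nlet_word {S : Type} [DecidableEq S] {w : FreeGroup S} (hw : w.norm = 1) :
    ∃ (s : S) (b : Bool), w = if b then FreeGroup.of s else (FreeGroup.of s)⁻¹ := by
  obtain ⟨x, hx⟩ := List.length_eq_one_iff.1 (show w.toWord.length = 1 from hw)
  refine ⟨x.1, x.2, ?_⟩
  have h1 : w = FreeGroup.mk [(x.1, x.2)] := by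
    rw [← FreeGroup.mk_toWord (x := w), hx]
  rw [h1]
  cases x.2 with
  | false => rfl
  | true => rfl

private theorem nlet_word_inj {S : Type} [DecidableEq S] {s s' : S} {b b' : Bool}
    (h : (if b then FreeGroup.of s else (FreeGroup.of s)⁻¹) =
      (if b' then FreeGroup.of s' else (FreeGroup.of s')⁻¹)) : s = s' := by
  have h1 := congrArg FreeGroup.toWord h
  cases b <;> cases b' <;> simp [FreeGroup.invRev] at h1 <;> exact h1

/-- The homomorphism `lift r` is injective: norm zero means trivial (`norm_eq_zero`). -/
theorem lift_inj_of_norm {S : Type} [DecidableEq S] {h : ℕ} (r : S → FreeGroup (Fin h))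
    (hr : ∀ w : FreeGroup S, w.norm ≤ (FreeGroup.lift r w).norm) :
    Injective (FreeGroup.lift r) := by
  rw [injective_iff_map_eq_one]
  intro w hw
  have := hr w
  rw [hw, FreeGroup.norm_one] at this
  exact FreeGroup.norm_eq_zero.1 (Nat.le_zero.1 this)

/-- PROOF. `lift r` is injective (`lift_inj_of_norm`) and surjective (`hgen`,
`FreeGroup.range_lift_eq_closure`). For `k : Fin h` choose `w` with `lift r w = of k`; then
`w.norm ≤ 1` and `w ≠ 1`, so `w = of s` or `w = (of s)⁻¹` for some `s = s k` (the word has
length one). This gives `r (s k) = (of k) ^ (± 1)`. The map `k ↦ s k` is injective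
(`of k = (of k')^{±1}` only for `k = k'`, e.g. `of_injective` and looking at the word or at the
exponent sum), and surjective: let `s₀ : S` be not of the form `s k`; the subgroup generated by
the `r (s k)` is everything (it contains all `of k`, `FreeGroup.closure_range_of`), so
`r s₀ = lift r v` with `v` in the subgroup generated by the `of (s k)`; by injectivity
`of s₀ = v`, contradiction (apply the endomorphism killing `of s₀` and fixing all other
generators: it fixes `v` but not `of s₀`). Alternative for surjectivity: `lift r` is an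
isomorphism, so `Equiv.ofFreeGroupEquiv` gives an equivalence `S ≃ Fin h`; an injective map
between finite sets of the same cardinality is bijective. -/
theorem letters {S : Type} [DecidableEq S] {h : ℕ} (r : S → FreeGroup (Fin h))
    (hr : ∀ w : FreeGroup S, w.norm ≤ (FreeGroup.lift r w).norm)
    (hgen : Subgroup.closure (Set.range r) = ⊤) :
    ∃ (e : Fin h ≃ S) (ε : Fin h → Bool), ∀ k,
      r (e k) = if ε k then FreeGroup.of k else (FreeGroup.of k)⁻¹ := by
  have hinj := lift_inj_of_norm r hr
  have hsurj : Surjective (FreeGroup.lift r) := by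
    rw [← MonoidHom.range_eq_top, FreeGroup.range_lift_eq_closure, hgen]
  have hex : ∀ k : Fin h, ∃ (s : S) (b : Bool),
      r s = if b then FreeGroup.of k else (FreeGroup.of k)⁻¹ := by
    intro k
    obtain ⟨w, hw⟩ := hsurj (FreeGroup.of k)
    have h1 := hr w
    rw [hw, FreeGroup.norm_of] at h1
    have h2 : w.norm ≠ 0 := by
      intro h3
      rw [FreeGroup.norm_eq_zero] at h3
      rw [h3, _root_.map_one] at hw
      exact FreeGroup.of_ne_one k hw.symm
    obtain ⟨s, b, hs⟩ := nlet_word (show w.norm = 1 by omega)
    refine ⟨s, b, ?_⟩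
    rw [hs] at hw
    cases b with
    | true =>
      simp only [if_true, FreeGroup.lift_apply_of] at hw
      rw [hw]
      rfl
    | false =>
      simp only [Bool.false_eq_true, if_false, _root_.map_inv, FreeGroup.lift_apply_of] at hw
      rw [← hw, inv_inv]
      rfl
  choose s b hs using hex
  have hsinj : Injective s := by
    intro k k' hk
    have h1 := hs k
    rw [hk, hs k'] at h1
    exact (nlet_word_inj h1).symm
  obtain ⟨e0⟩ : Nonempty (S ≃ Fin h) :=
    ⟨Equiv.ofFreeGroupEquiv (MulEquiv.ofBijective (FreeGroup.lift r) ⟨hinj, hsurj⟩)⟩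
  have hssurj : Surjective s := by
    have h1 : Surjective (e0 ∘ s) := Finite.injective_iff_surjective.1 (e0.injective.comp hsinj)
    intro x
    obtain ⟨k, hk⟩ := h1 (e0 x)
    exact ⟨k, e0.injective hk⟩
  exact ⟨Equiv.ofBijective s ⟨hsinj, hssurj⟩, b, hs⟩

/-- Change of signs. PROOF: the endomorphism `σ` of `FreeGroup ι` with
`of i ↦ if ε i then of i else (of i)⁻¹` is an involution (`MonoidHom.toMulEquiv σ σ`, see the
proof of `NE.inv`). -/
theorem NE.signs {ι G : Type} [Group G] (t : ι → G) (ε : ι → Bool) :
    NE t (fun i => if ε i then t i else (t i)⁻¹) := by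
  have key : (FreeGroup.lift (fun k => if ε k then FreeGroup.of k
      else (FreeGroup.of k)⁻¹)).comp (FreeGroup.lift (fun k => if ε k then FreeGroup.of k
      else (FreeGroup.of k)⁻¹)) = MonoidHom.id (FreeGroup ι) := by
    ext k
    cases hk : ε k <;> simp [hk]
  refine ⟨MonoidHom.toMulEquiv _ _ key key, fun k => ?_⟩
  cases hk : ε k <;> simp [hk]

end Pool.Agent.MPb5ead8
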