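import Pool.Agent.Lib.MP_b5ead8_al.Defs

/-!
# MP_b5ead8_al: minimal tuples exist
-/

set_option autoImplicit false

namespace Pool.Agent.MPb5ead8

open FreeGroup Function

/-- PROOF. Among the tuples `s : ι → FreeGroup (Fin h)` with `NE t s` (`t` itself is one,
`NE.refl`) choose one minimising the pair `(∑ norm, ∑ sec)` in the lexicographic order of
`ℕ ×ₗ ℕ` (well founded; or use `Nat.find` twice: first the minimal value of `∑ norm`, then among
those with this value the minimal value of `∑ sec`). It is minimal, as `NE s s'` implies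
`NE t s'` (`NE.trans`). -/
theorem exists_minimal {ι : Type} [Fintype ι] {h : ℕ} (t : ι → FreeGroup (Fin h)) :
    ∃ s : ι → FreeGroup (Fin h), NE t s ∧ Minimal s := by
  classical
  have h1 : ∃ n, ∃ s : ι → FreeGroup (Fin h), NE t s ∧ ∑ i, (s i).norm = n :=
    ⟨_, t, NE.refl t, rfl⟩
  have h2 : ∃ m, ∃ s : ι → FreeGroup (Fin h), NE t s ∧ ∑ i, (s i).norm = Nat.find h1 ∧
      ∑ i, sec h (s i) = m := by
    obtain ⟨s, h3, h4⟩ := Nat.find_spec h1
    exact ⟨_, s, h3, h4, rfl⟩
  obtain ⟨s, h3, h4, h5⟩ := Nat.find_spec h2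
  refine ⟨s, h3, fun s' hs' => ?_⟩
  have h6 : Nat.find h1 ≤ ∑ i, (s' i).norm := Nat.find_min' h1 ⟨s', h3.trans hs', rfl⟩
  rcases h6.lt_or_eq with h7 | h7
  · left
    rw [h4]
    exact h7
  · right
    refine ⟨h4.trans h7, ?_⟩
    rw [h5]
    exact Nat.find_min' h2 ⟨s', h3.trans hs', h7.symm, rfl⟩

private theorem nmin_sum {ι : Type} [Fintype ι] [DecidableEq ι] {G : Type} (f : G → ℕ)
    (t : ι → G) (i : ι) (x : G) :
    ∑ j, f (Function.update t i x j) + f (t i) = ∑ j, f (t j) + f x := by
  rw [← Finset.add_sum_erase _ (fun j => f (Function.update t i x j)) (Finset.mem_univ i),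
    ← Finset.add_sum_erase _ (fun j => f (t j)) (Finset.mem_univ i)]
  have h1 : ∑ j ∈ Finset.univ.erase i, f (Function.update t i x j) =
      ∑ j ∈ Finset.univ.erase i, f (t j) := by
    refine Finset.sum_congr rfl fun j hj => ?_
    rw [Function.update_of_ne (Finset.ne_of_mem_erase hj)]
  rw [h1, Function.update_self]
  omega

/-- PROOF. Apply `ht` to `s = update t i x`; `Finset.sum_update_of_mem` (or
`Finset.add_sum_erase` on both sides) shows that the two sums for `s` and `t` differ only in the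
term of `i`. -/
theorem Minimal.update {ι : Type} [Fintype ι] [DecidableEq ι] {h : ℕ}
    {t : ι → FreeGroup (Fin h)} (ht : Minimal t) (i : ι) (x : FreeGroup (Fin h))
    (hx : NE t (Function.update t i x)) :
    (t i).norm < x.norm ∨ ((t i).norm = x.norm ∧ sec h (t i) ≤ sec h x) := by
  have h1 := nmin_sum (fun y : FreeGroup (Fin h) => y.norm) t i x
  have h2 := nmin_sum (fun y : FreeGroup (Fin h) => sec h y) t i x
  rcases ht _ hx with h3 | ⟨h3, h4⟩
  · left
    omega
  · right
    exact ⟨by omega, by omega⟩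

end Pool.Agent.MPb5ead8
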