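import Pool.Agent.Lib.MP_b5ead8_al.NInj
import Pool.Agent.Lib.MP_b5ead8_al.NLet

/-!
# MP_b5ead8_al: Nielsen's theorem on generating tuples of free groups
-/

set_option autoImplicit false

namespace Pool.Agent.MPb5ead8

open FreeGroup Function

/-- Every finite generating tuple of a free group of finite rank is Nielsen equivalent to the
basis, extended by ones. PROOF. `Fintype ι`, `classical`. Take `s` minimal with `NE t s`
(`exists_minimal`); it generates (`NE.closure_top`). Let `S = {i // s i ≠ 1}`,
`ρ = {i // ¬ s i ≠ 1}`, `r = fun i : S => s i`. The range of `r` generates, since the range of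
`s` is contained in the range of `r` together with `1`. `letters r (norm_lift_ge hs) _` gives
`e : Fin h ≃ S` and signs `ε`. The equivalence `(Fin h ⊕ ρ) ≃ ι` (`Equiv.sumCongr e
(Equiv.refl _)` followed by `Equiv.sumCompl`) and `NE.reindex` give
`NE s (Sum.elim (fun k => if ε k then of k else (of k)⁻¹) (fun _ : ρ => 1))`, and
`NE.sum_left _ (NE.signs _ ε)` (the double inverse is the identity; or use `NE.signs` for
`FreeGroup.of` and `NE.symm`) gives the claim. -/
theorem nielsen {ι : Type} [Finite ι] {h : ℕ} (t : ι → FreeGroup (Fin h))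
    (ht : Subgroup.closure (Set.range t) = ⊤) :
    ∃ ρ : Type, Finite ρ ∧ NE t (Sum.elim FreeGroup.of (fun _ : ρ => 1)) := by
  classical
  have := Fintype.ofFinite ι
  obtain ⟨s, hts, hs⟩ := exists_minimal t
  have hgen := hts.closure_top ht
  have hgen' : Subgroup.closure (Set.range (fun i : {i : ι // s i ≠ 1} => s i.1)) = ⊤ := by
    rw [eq_top_iff, ← hgen, Subgroup.closure_le]
    rintro _ ⟨i, rfl⟩
    by_cases hi : s i = 1
    · rw [hi]
      exact one_mem _
    · exact Subgroup.subset_closure ⟨⟨i, hi⟩, rfl⟩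
  obtain ⟨e, ε, he⟩ := letters (fun i : {i : ι // s i ≠ 1} => s i.1) (norm_lift_ge hs) hgen'
  refine ⟨{i : ι // ¬ s i ≠ 1}, inferInstance, hts.trans ?_⟩
  have h1 := NE.reindex s ((Equiv.sumCongr e (Equiv.refl {i : ι // ¬ s i ≠ 1})).trans
    (Equiv.sumCompl (fun i => s i ≠ 1)))
  refine h1.trans ((NE.of_eq (s := Sum.elim (fun k => if ε k then FreeGroup.of k
    else (FreeGroup.of k)⁻¹) (fun _ : {i : ι // ¬ s i ≠ 1} => 1)) ?_).trans
    (NE.sum_left _ (NE.signs FreeGroup.of ε).symm))
  funext x
  cases x with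
  | inl k => exact he k
  | inr i => exact not_not.1 i.2

/-- The index sets of Nielsen equivalent tuples are equipotent. PROOF:
`Equiv.ofFreeGroupEquiv`. -/
theorem NE.card {ι κ G : Type} [Group G] [Finite ι] [Finite κ] {t : ι → G} {s : κ → G}
    (h : NE t s) : Nat.card ι = Nat.card κ := by
  obtain ⟨α, -⟩ := h
  exact (Nat.card_congr (Equiv.ofFreeGroupEquiv α)).symm

/-- The rank of the free group is a lower bound for the number of generators. PROOF: `nielsen`
and `NE.card`, `Nat.card_sum`, `Nat.card_fin`. -/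
theorem rank_le {ι : Type} [Finite ι] {h : ℕ} (t : ι → FreeGroup (Fin h))
    (ht : Subgroup.closure (Set.range t) = ⊤) : h ≤ Nat.card ι := by
  obtain ⟨ρ, hρ, h1⟩ := nielsen t ht
  have h2 := h1.card
  rw [Nat.card_sum, Nat.card_fin] at h2
  omega

end Pool.Agent.MPb5ead8
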