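import Pool.Agent.Lib.MP_b5ead8_al.Stable
import Pool.Agent.Lib.MP_b5ead8_al.MixB

/-!
# MP_b5ead8_al: the stable theorem with min g h
-/

set_option autoImplicit false

namespace Pool.Agent.MPb5ead8

open FreeGroup Function

theorem stMin_aux {ι : Type} [Finite ι] {g h k k' : ℕ} (hg : g = k' + 1) (hk' : k' ≤ k)
    (t : ι → FreeGroup (Fin g) × FreeGroup (Fin h))
    (ht : Subgroup.closure (Set.range t) = ⊤) : Std (Sum.elim t (fun _ : Fin k => 1)) := by
  subst hg
  obtain ⟨d, rfl⟩ := Nat.exists_eq_add_of_le hk'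
  have h1 := stable t ht
  have h2 := Std.sum_one (κ := Fin d) h1
  refine Std.of_NE ?_ h2
  have h3 := NE.reindex (Sum.elim t (fun _ : Fin (k' + d) => 1))
    ((Equiv.sumAssoc ι (Fin k') (Fin d)).trans ((Equiv.refl ι).sumCongr finSumFinEquiv))
  refine h3.trans (NE.of_eq ?_)
  funext x
  rcases x with (x | x) | x <;> rfl

/-- PROOF. If `g ≤ h` then `g ≤ k + 1`; write `g = k' + 1`, `k' ≤ k`: `stable` gives
`Std (Sum.elim t (fun _ : Fin k' => 1))`, `Std.sum_one` (with `κ = Fin (k - k')`) and a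
reindexing (`Equiv.sumAssoc`, `finSumFinEquiv`, `k' + (k - k') = k`) give the claim. If `h ≤ g`,
the same for `Prod.swap ∘ t` (`swap_gen`) and `Std.swap`. -/
theorem stable_min {ι : Type} [Finite ι] {g h k : ℕ} (hg : 1 ≤ g) (hh : 1 ≤ h)
    (hk : min g h ≤ k + 1) (t : ι → FreeGroup (Fin g) × FreeGroup (Fin h))
    (ht : Subgroup.closure (Set.range t) = ⊤) : Std (Sum.elim t (fun _ : Fin k => 1)) := by
  rcases le_total g h with hgh | hgh
  · obtain ⟨k', rfl⟩ : ∃ k', g = k' + 1 := ⟨g - 1, by omega⟩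
    rw [min_eq_left hgh] at hk
    exact stMin_aux rfl (by omega) t ht
  · obtain ⟨k', rfl⟩ : ∃ k', h = k' + 1 := ⟨h - 1, by omega⟩
    rw [min_eq_right hgh] at hk
    have h1 : Std (Sum.elim (Prod.swap ∘ t) (fun _ : Fin k => 1)) :=
      stMin_aux rfl (by omega) (Prod.swap ∘ t) (swap_gen t ht)
    refine Std.swap ?_
    have h2 : Prod.swap ∘ (Sum.elim t (fun _ : Fin k => 1)) =
        Sum.elim (Prod.swap ∘ t) (fun _ : Fin k => 1) := by
      funext x
      rcases x with x | x <;> rfl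
    rw [h2]
    exact h1

end Pool.Agent.MPb5ead8
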