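import Pool.Agent.Lib.MP_b5ead8_al.Glue

/-!
# MP_b5ead8_al: the stable theorem for tuples
-/

set_option autoImplicit false

namespace Pool.Agent.MPb5ead8

open FreeGroup Function

/-- PROOF. The first coordinates generate `F_g`; `nielsen` and
`NE.lift_map (MonoidHom.fst _ _)`. -/
theorem shape {ι : Type} [Finite ι] {g h : ℕ} (t : ι → FreeGroup (Fin g) × FreeGroup (Fin h))
    (ht : Subgroup.closure (Set.range t) = ⊤) :
    ∃ ρ : Type, Finite ρ ∧ ∃ (p : Fin g → FreeGroup (Fin h)) (q : ρ → FreeGroup (Fin h)),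
      NE t (Sum.elim (fun a => (FreeGroup.of a, p a)) (fun r => (1, q r))) := by
  have h1 : Subgroup.closure (Set.range
      (MonoidHom.fst (FreeGroup (Fin g)) (FreeGroup (Fin h)) ∘ t)) = ⊤ := by
    rw [Set.range_comp, ← MonoidHom.map_closure, ht]
    exact Subgroup.map_top_of_surjective _ Prod.fst_surjective
  obtain ⟨ρ, hρ, h2⟩ := nielsen _ h1
  obtain ⟨t1, h3, h4⟩ :=
    NE.lift_map (MonoidHom.fst (FreeGroup (Fin g)) (FreeGroup (Fin h))) (t := t) h2
  refine ⟨ρ, hρ, fun a => (t1 (Sum.inl a)).2, fun r => (t1 (Sum.inr r)).2,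
    h3.trans (NE.of_eq ?_)⟩
  funext x
  have h5 := congrFun h4 x
  cases x with
  | inl a => exact Prod.ext h5 rfl
  | inr r => exact Prod.ext h5 rfl

/-- The reindexing used in `stable_shape`. -/
def stableEquiv (ρ : Type) (k : ℕ) :
    (Fin k ⊕ (Fin 1 ⊕ (ρ ⊕ Fin k))) ≃ ((Fin (k + 1) ⊕ ρ) ⊕ Fin k) where
  toFun := Sum.elim (fun l => Sum.inl (Sum.inl l.castSucc))
    (Sum.elim (fun _ => Sum.inl (Sum.inl (Fin.last k)))
      (Sum.elim (fun r => Sum.inl (Sum.inr r)) (fun l => Sum.inr l)))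
  invFun := Sum.elim (Sum.elim (fun a => Fin.lastCases
      (motive := fun _ => Fin k ⊕ (Fin 1 ⊕ (ρ ⊕ Fin k))) (Sum.inr (Sum.inl 0))
      (fun l => Sum.inl l) a) (fun r => Sum.inr (Sum.inr (Sum.inl r))))
    (fun l => Sum.inr (Sum.inr (Sum.inr l)))
  left_inv := by
    rintro (l | a | r | l)
    · simp
    · simp only [Sum.elim_inr, Sum.elim_inl, Fin.lastCases_last]
      rw [Subsingleton.elim a 0]
    · simp
    · simp
  right_inv := by
    rintro ((a | r) | l)
    · refine Fin.lastCases ?_ (fun l => ?_) a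
      · simp
      · simp
    · simp
    · simp

/-- PROOF. Write `T = Sum.elim (fun a => (of a, p a)) (fun r => (1, q r))`.
(1) `T` generates, so there is `w l : FreeGroup (Fin (k + 1) ⊕ ρ)` with
`lift T (w l) = (1, p (castSucc l))` (`FreeGroup.range_lift_eq_closure`); `NE.shear T 1 w` turns
`Sum.elim T 1` into `Sum.elim T z`, `z l = (1, p (castSucc l))`.
(2) `NE.shear'` with `w' (inl (castSucc l)) = (of l)⁻¹`, `w' (inl (last k)) = 1`,
`w' (inr r) = 1` turns it into `Sum.elim T' z` with `T' (inl (castSucc l)) = (of (castSucc l),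
1)`, `T' (inl (last k)) = (of (last k), p (last k))`, `T' (inr r) = (1, q r)`.
(3) Reindex: `(Fin k ⊕ (Fin 1 ⊕ (ρ ⊕ Fin k))) ≃ ((Fin (k + 1) ⊕ ρ) ⊕ Fin k)`; the entries of
the last three blocks are `lastHom k h` of `(of 0, p (last k))`, `(1, q r)`,
`(1, p (castSucc l))`. -/
theorem stable_shape {ρ : Type} {k h : ℕ} (p : Fin (k + 1) → FreeGroup (Fin h))
    (q : ρ → FreeGroup (Fin h))
    (hgen : Subgroup.closure (Set.range (Sum.elim
      (fun a => ((FreeGroup.of a, p a) : FreeGroup (Fin (k + 1)) × FreeGroup (Fin h)))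
      (fun r => (1, q r)))) = ⊤) :
    NE (Sum.elim (Sum.elim
      (fun a => ((FreeGroup.of a, p a) : FreeGroup (Fin (k + 1)) × FreeGroup (Fin h)))
      (fun r => (1, q r))) (fun _ : Fin k => 1))
      (Sum.elim (firstGens k h) (lastHom k h ∘
        Sum.elim (fun _ : Fin 1 => (FreeGroup.of 0, p (Fin.last k)))
          (Sum.elim (fun r => (1, q r)) (fun l : Fin k => (1, p l.castSucc))))) := by
  set T : Fin (k + 1) ⊕ ρ → FreeGroup (Fin (k + 1)) × FreeGroup (Fin h) :=
    Sum.elim (fun a => (FreeGroup.of a, p a)) (fun r => (1, q r)) with hT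
  have h1 : ∀ x : FreeGroup (Fin (k + 1)) × FreeGroup (Fin h),
      ∃ w : FreeGroup (Fin (k + 1) ⊕ ρ), FreeGroup.lift T w = x := by
    intro x
    have : x ∈ (FreeGroup.lift T).range := by
      rw [FreeGroup.range_lift_eq_closure, hgen]
      trivial
    exact this
  choose w hw using h1
  have h2 := NE.shear T (fun _ : Fin k => 1) (fun l => w (1, p l.castSucc))
  have h3 : (fun l : Fin k => (1 : FreeGroup (Fin (k + 1)) × FreeGroup (Fin h)) *
      FreeGroup.lift T (w (1, p l.castSucc))) = fun l : Fin k => (1, p l.castSucc) := by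
    funext l
    rw [hw, one_mul]
  rw [h3] at h2
  have h4 := NE.shear' T
    (fun l : Fin k => ((1, p l.castSucc) : FreeGroup (Fin (k + 1)) × FreeGroup (Fin h)))
    (Sum.elim (fun a => Fin.lastCases (motive := fun _ => FreeGroup (Fin k)) 1
      (fun l => (FreeGroup.of l)⁻¹) a) (fun _ => 1))
  refine h2.trans (h4.trans ((NE.reindex _ (stableEquiv ρ k)).trans (NE.of_eq ?_)))
  funext x
  rcases x with l | a | r | l
  · simp [stableEquiv, hT, firstGens]
  · simp [stableEquiv, hT, lastHom]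
  · simp [stableEquiv, hT, lastHom]
  · simp [stableEquiv, hT, lastHom]

theorem NE.closure_sum_one {ι κ G : Type} [Group G] {t : ι → G}
    (ht : Subgroup.closure (Set.range t) = ⊤) :
    Subgroup.closure (Set.range (Sum.elim t (fun _ : κ => 1))) = ⊤ := by
  rw [eq_top_iff, ← ht]
  apply Subgroup.closure_mono
  rintro _ ⟨i, rfl⟩
  exact ⟨Sum.inl i, rfl⟩

/-- After adding `k` ones every finite generating tuple of `F_{k+1} × F_h` is standard. -/
theorem stable {ι : Type} [Finite ι] {k h : ℕ}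
    (t : ι → FreeGroup (Fin (k + 1)) × FreeGroup (Fin h))
    (ht : Subgroup.closure (Set.range t) = ⊤) : Std (Sum.elim t (fun _ : Fin k => 1)) := by
  obtain ⟨ρ, hρ, p, q, h1⟩ := shape t ht
  have h2 := NE.sum_left (fun _ : Fin k => (1 : FreeGroup (Fin (k + 1)) × FreeGroup (Fin h))) h1
  have h3 := stable_shape p q (h1.closure_top ht)
  refine Std.of_NE (h2.trans h3) (glue _ ?_)
  exact (h2.trans h3).closure_top (NE.closure_sum_one ht)

end Pool.Agent.MPb5ead8
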