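import Pool.Agent.Lib.MP_b5ead8_al.Glue

/-!
# MP_b5ead8_al: exchange of the factors, automorphisms of the first factor, extension by ones
-/

set_option autoImplicit false

namespace Pool.Agent.MPb5ead8

open FreeGroup Function

/-- PROOF. `hs : NE (Prod.swap ∘ t) (Sum.elim (std h g) 1)`; apply `NE.map` with the
homomorphism `(MulEquiv.prodComm).toMonoidHom` and reindex by `Equiv.sumComm` on the first
summand (`(Equiv.sumComm _ _).sumCongr (Equiv.refl ρ)`). -/
theorem Std.swap {ι : Type} {g h : ℕ} {t : ι → FreeGroup (Fin g) × FreeGroup (Fin h)}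
    (hs : Std (Prod.swap ∘ t)) : Std t := by
  obtain ⟨ρ, hρ, h1⟩ := hs
  have h2 := NE.map (MulEquiv.prodComm : FreeGroup (Fin h) × FreeGroup (Fin g) ≃*
    FreeGroup (Fin g) × FreeGroup (Fin h)).toMonoidHom h1
  refine ⟨ρ, hρ, ((NE.of_eq ?_).trans h2).trans ((NE.reindex _
    ((Equiv.sumComm (Fin g) (Fin h)).sumCongr (Equiv.refl ρ))).trans (NE.of_eq ?_))⟩
  · funext i
    rfl
  · funext x
    rcases x with (a | b) | r
    · rfl
    · rfl
    · rfl

/-- PROOF. `NE.sum_left` and a reindexing: `Sum.elim (Sum.elim (std g h) 1) 1` is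
`Sum.elim (std g h) 1` up to `Equiv.sumAssoc`. -/
theorem Std.sum_one {ι κ : Type} [Finite κ] {g h : ℕ}
    {t : ι → FreeGroup (Fin g) × FreeGroup (Fin h)} (hs : Std t) :
    Std (Sum.elim t (fun _ : κ => 1)) := by
  obtain ⟨ρ, hρ, h1⟩ := hs
  refine ⟨ρ ⊕ κ, inferInstance, (NE.sum_left (fun _ : κ => 1) h1).trans
    ((NE.reindex _ (Equiv.sumAssoc (Fin g ⊕ Fin h) ρ κ).symm).trans (NE.of_eq ?_))⟩
  funext x
  rcases x with a | (r | k)
  · rfl
  · rfl
  · rfl

/-- The images of the basis under an automorphism are Nielsen equivalent to the basis. -/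
theorem swap_of {g : ℕ} (φ : FreeGroup (Fin g) ≃* FreeGroup (Fin g)) :
    NE (fun a => φ (FreeGroup.of a)) (FreeGroup.of : Fin g → FreeGroup (Fin g)) := by
  refine ⟨φ.symm, fun k => ?_⟩
  have h1 : FreeGroup.lift (fun a => φ (FreeGroup.of a)) = φ.toMonoidHom := by
    ext a
    simp
  rw [h1]
  simp

/-- PROOF. `hs : NE t (Sum.elim (std g h) 1)`; `NE.map` with `(φ.toMonoidHom).prodMap id` gives
`NE (fun i => (φ (t i).1, (t i).2)) (Sum.elim (Sum.elim (fun a => (φ (of a), 1)) (fun b =>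
(1, of b))) 1)`; and `NE (fun a => φ (of a)) of` (with the isomorphism `φ.symm`: both
`lift (φ ∘ of)` and `φ` are the same homomorphism), hence `NE (fun a => (φ (of a), 1))
(fun a => (of a, 1))` by `NE.map (MonoidHom.inl _ _)`; use `NE.sum_left` twice. -/
theorem Std.aut {ι : Type} {g h : ℕ} {t : ι → FreeGroup (Fin g) × FreeGroup (Fin h)}
    (hs : Std t) (φ : FreeGroup (Fin g) ≃* FreeGroup (Fin g)) :
    Std (fun i => (φ (t i).1, (t i).2)) := by
  obtain ⟨ρ, hρ, h1⟩ := hs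
  have h2 := NE.map ((φ.toMonoidHom).prodMap (MonoidHom.id (FreeGroup (Fin h)))) h1
  have h3 := NE.map (MonoidHom.inl (FreeGroup (Fin g)) (FreeGroup (Fin h))) (swap_of φ)
  have h4 := NE.sum_left (fun _ : ρ => (1 : FreeGroup (Fin g) × FreeGroup (Fin h)))
    (NE.sum_left (fun b : Fin h => ((1 : FreeGroup (Fin g)), FreeGroup.of b)) h3)
  refine ⟨ρ, hρ, ((NE.of_eq ?_).trans h2).trans ((NE.of_eq ?_).trans h4)⟩
  · funext i
    rfl
  · funext x
    rcases x with (a | b) | r
    · rfl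
    · simp [std]
    · exact _root_.map_one ((φ.toMonoidHom).prodMap (MonoidHom.id (FreeGroup (Fin h))))

/-- From standard tuples to automorphisms. PROOF. `hs : NE t (Sum.elim (std g h) (fun _ : ρ =>
1))` gives `α : FreeGroup ((Fin g ⊕ Fin h) ⊕ ρ) ≃* FreeGroup ((Fin g ⊕ Fin h) ⊕ κ)`; by
`NE.card` and `Nat.card_sum` the finite sets `ρ`, `κ` have the same cardinality, so there is an
equivalence `ρ ≃ κ` (`Finite.equivOfCardEq` or `Nat.card` lemmas). Reindexing, we get
`NE t (Sum.elim (std g h) (fun _ : κ => 1))`, i.e. `β` with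
`lift t (β (of i)) = Sum.elim (std g h) 1 i`; take `α = β.symm` and use `NE.hom`. -/
theorem Std.exists_aut {κ : Type} [Finite κ] {g h : ℕ}
    {t : ((Fin g ⊕ Fin h) ⊕ κ) → FreeGroup (Fin g) × FreeGroup (Fin h)} (hs : Std t) :
    ∃ α : MulAut (FreeGroup ((Fin g ⊕ Fin h) ⊕ κ)),
      FreeGroup.lift t = (FreeGroup.lift (Sum.elim (std g h) (fun _ : κ => 1))).comp
        α.toMonoidHom := by
  obtain ⟨ρ, hρ, h1⟩ := hs
  have hc : Nat.card ρ = Nat.card κ := by
    have := NE.card h1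
    rw [Nat.card_sum (β := κ), Nat.card_sum (β := ρ)] at this
    omega
  have e : κ ≃ ρ := Classical.choice ((Finite.card_eq).1 hc.symm)
  have h2 : NE t (Sum.elim (std g h) (fun _ : κ => 1)) := by
    refine h1.trans ((NE.reindex _ ((Equiv.refl (Fin g ⊕ Fin h)).sumCongr e)).trans
      (NE.of_eq ?_))
    funext x
    rcases x with a | k
    · rfl
    · rfl
  obtain ⟨β, hβ⟩ := h2
  refine ⟨β.symm, ?_⟩
  ext x : 1
  have h3 := NE.hom hβ (β.symm (FreeGroup.of x))
  rw [MulEquiv.apply_symm_apply] at h3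
  exact h3

end Pool.Agent.MPb5ead8
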