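import Mathlib

/-!
# MP_b5ead8_al: common prefixes of reduced words and a numerical code of words
-/

set_option autoImplicit false

namespace Pool.Agent.MPb5ead8

open List FreeGroup

variable {α : Type} [DecidableEq α]

/-- The length of the longest common prefix. -/
def lcp : List (α × Bool) → List (α × Bool) → ℕ
  | a :: L, b :: M => if a = b then lcp L M + 1 else 0
  | [], _ => 0
  | _ :: _, [] => 0

theorem lcp_nil_left (M : List (α × Bool)) : lcp [] M = 0 := by simp [lcp]

theorem lcp_nil_right (L : List (α × Bool)) : lcp L [] = 0 := by cases L <;> simp [lcp]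

theorem lcp_spec (L M : List (α × Bool)) : ∃ P X Y, L = P ++ X ∧ M = P ++ Y ∧
    P.length = lcp L M ∧ ∀ a ∈ X.head?, ∀ b ∈ Y.head?, a ≠ b := by
  induction L generalizing M with
  | nil => exact ⟨[], [], M, rfl, rfl, by simp [lcp], by simp⟩
  | cons a L ih =>
    cases M with
    | nil => exact ⟨[], a :: L, [], rfl, rfl, by simp [lcp], by simp⟩
    | cons b M =>
      by_cases h : a = b
      · obtain ⟨P, X, Y, h1, h2, h3, h4⟩ := ih M
        refine ⟨a :: P, X, Y, by rw [h1]; rfl, by rw [h2, h]; rfl, ?_, h4⟩
        simp [lcp, h, h3]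
      · refine ⟨[], a :: L, b :: M, rfl, rfl, by simp [lcp, h], ?_⟩
        intro x hx y hy
        simp only [head?_cons, Option.mem_def, Option.some.injEq] at hx hy
        rw [← hx, ← hy]
        exact h

theorem le_lcp_iff (k : ℕ) (L M : List (α × Bool)) :
    k ≤ lcp L M ↔ k ≤ L.length ∧ k ≤ M.length ∧ take k L = take k M := by
  obtain ⟨P, X, Y, h1, h2, h3, h4⟩ := lcp_spec L M
  rw [← h3]
  constructor
  · intro hk
    rw [h1, h2]
    refine ⟨by simp; omega, by simp; omega, ?_⟩
    rw [take_append_of_le_length hk, take_append_of_le_length hk]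
  · rintro ⟨hk1, hk2, hk3⟩
    by_contra hlt
    push Not at hlt
    rw [h1, length_append] at hk1
    rw [h2, length_append] at hk2
    cases X with
    | nil => simp at hk1; omega
    | cons a X =>
      cases Y with
      | nil => simp at hk2; omega
      | cons b Y =>
        have h5 := h4 a (by simp) b (by simp)
        apply h5
        have h6 : (take k L)[P.length]? = (take k M)[P.length]? := by rw [hk3]
        rw [h1, h2] at h6
        rw [getElem?_take_of_lt hlt, getElem?_take_of_lt hlt] at h6
        rw [getElem?_append_right le_rfl, getElem?_append_right le_rfl] at h6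
        simpa using h6

theorem lcp_comm (L M : List (α × Bool)) : lcp L M = lcp M L := by
  apply le_antisymm
  · rw [le_lcp_iff]
    have := (le_lcp_iff (lcp L M) L M).1 le_rfl
    exact ⟨this.2.1, this.1, this.2.2.symm⟩
  · rw [le_lcp_iff]
    have := (le_lcp_iff (lcp M L) M L).1 le_rfl
    exact ⟨this.2.1, this.1, this.2.2.symm⟩

theorem lcp_ultra {k : ℕ} {L M N : List (α × Bool)} (h1 : k ≤ lcp L M) (h2 : k ≤ lcp M N) :
    k ≤ lcp L N := by
  rw [le_lcp_iff] at *
  exact ⟨h1.1, h2.2.1, h1.2.2.trans h2.2.2⟩

/-- The amount of cancellation in `x⁻¹ * y`. -/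
def cp (x y : FreeGroup α) : ℕ := lcp x.toWord y.toWord

theorem cp_comm (x y : FreeGroup α) : cp x y = cp y x := lcp_comm _ _

theorem cp_ultra {k : ℕ} {x y z : FreeGroup α} (h1 : k ≤ cp x y) (h2 : k ≤ cp y z) :
    k ≤ cp x z := lcp_ultra h1 h2

theorem cp_le_left (x y : FreeGroup α) : cp x y ≤ x.norm :=
  ((le_lcp_iff _ _ _).1 le_rfl).1

theorem cp_le_right (x y : FreeGroup α) : cp x y ≤ y.norm :=
  ((le_lcp_iff _ _ _).1 le_rfl).2.1

theorem toWord_inv_mul (x y : FreeGroup α) : ∃ P X Y, x.toWord = P ++ X ∧ y.toWord = P ++ Y ∧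
    P.length = cp x y ∧ (x⁻¹ * y).toWord = invRev X ++ Y := by
  obtain ⟨P, X, Y, h1, h2, h3, h4⟩ := lcp_spec x.toWord y.toWord
  refine ⟨P, X, Y, h1, h2, h3, ?_⟩
  have hx : x = mk P * mk X := by rw [mul_mk, ← h1, mk_toWord]
  have hy : y = mk P * mk Y := by rw [mul_mk, ← h2, mk_toWord]
  have hxy : x⁻¹ * y = mk (invRev X ++ Y) := by
    rw [hx, hy, ← mul_mk, ← inv_mk]
    group
  rw [hxy, toWord_mk]
  apply IsReduced.reduce_eq
  rw [FreeGroup.IsReduced, isChain_append]
  refine ⟨?_, ?_, ?_⟩
  · have h5 : IsReduced (x⁻¹).toWord := isReduced_toWord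
    rw [toWord_inv, h1, invRev_append] at h5
    exact (isChain_append.1 h5).1
  · have h5 : IsReduced y.toWord := isReduced_toWord
    rw [h2] at h5
    exact (isChain_append.1 h5).2.1
  · intro a ha b hb hab
    rw [invRev, getLast?_reverse, head?_map] at ha
    simp only [Option.mem_def, Option.map_eq_some_iff] at ha
    obtain ⟨c, hc, hca⟩ := ha
    have h6 := h4 c hc b hb
    rw [← hca] at hab ⊢
    have h7 : c.2 ≠ b.2 := fun h => h6 (Prod.ext hab h)
    revert h7
    cases c.2 <;> cases b.2 <;> simp

theorem norm_inv_mul (x y : FreeGroup α) : (x⁻¹ * y).norm + 2 * cp x y = x.norm + y.norm := by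
  obtain ⟨P, X, Y, h1, h2, h3, h4⟩ := toWord_inv_mul x y
  rw [FreeGroup.norm, FreeGroup.norm, FreeGroup.norm, h4, h1, h2, ← h3]
  simp only [length_append, invRev_length]
  omega

theorem norm_mul_cp (x y : FreeGroup α) : (x * y).norm + 2 * cp x⁻¹ y = x.norm + y.norm := by
  have := norm_inv_mul x⁻¹ y
  rwa [inv_inv, norm_inv_eq] at this

/-- A nontrivial element has a longer square. -/
theorem two_cp_lt {x : FreeGroup α} (hx : x ≠ 1) : 2 * cp x⁻¹ x < x.norm := by
  by_contra hlt
  push Not at hlt
  have hpos : 0 < x.norm := by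
    rcases Nat.eq_zero_or_pos x.norm with h | h
    · exact absurd (norm_eq_zero.1 h) hx
    · exact h
  set L := x.toWord with hL
  have hLn : L.length = x.norm := rfl
  have hred : IsReduced L := isReduced_toWord
  have h1 := ((le_lcp_iff (cp x⁻¹ x) x⁻¹.toWord x.toWord).1 le_rfl)
  have h2 : ∀ k, k < cp x⁻¹ x → ∀ (h : k < L.length) (h' : L.length - 1 - k < L.length),
      L[k] = ((L[L.length - 1 - k]).1, !(L[L.length - 1 - k]).2) := by
    intro k hk h h'
    have h3 : (take (cp x⁻¹ x) x⁻¹.toWord)[k]? = (take (cp x⁻¹ x) x.toWord)[k]? := by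
      rw [h1.2.2]
    rw [getElem?_take_of_lt hk, getElem?_take_of_lt hk, toWord_inv, ← hL, invRev] at h3
    rw [getElem?_reverse (by simpa using h), getElem?_map, length_map,
      getElem?_eq_getElem h', getElem?_eq_getElem h] at h3
    simp only [Option.map_some, Option.some.injEq] at h3
    exact h3.symm
  rcases Nat.even_or_odd' x.norm with ⟨m, hm | hm⟩
  · -- even length
    have hm0 : 0 < m := by omega
    have h3 := h2 (m - 1) (by omega) (by omega) (by omega)
    have h4 : L.length - 1 - (m - 1) = m - 1 + 1 := by omega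
    simp only [h4] at h3
    have h5 := (isChain_iff_getElem.1 hred) (m - 1) (by omega)
    have h6 : (L[m - 1]'(by omega)).1 = (L[m - 1 + 1]'(by omega)).1 := by rw [h3]
    have h7 := h5 h6
    have h8 : (L[m - 1]'(by omega)).2 = !(L[m - 1 + 1]'(by omega)).2 := by rw [h3]
    rw [h8] at h7
    simp at h7
  · have h3 := h2 m (by omega) (by omega) (by omega)
    have h4 : L.length - 1 - m = m := by omega
    simp only [h4] at h3
    have h5 : (L[m]'(by omega)).2 = !(L[m]'(by omega)).2 := by
      conv_lhs => rw [h3]
    simp at h5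

omit [DecidableEq α]

/-- Code of a word with digits `d`, most significant digit first. -/
def code (B : ℕ) (d : α × Bool → ℕ) : List (α × Bool) → ℕ
  | [] => 0
  | x :: L => d x * B ^ L.length + code B d L

theorem code_append (B : ℕ) (d : α × Bool → ℕ) (P S : List (α × Bool)) :
    code B d (P ++ S) = code B d P * B ^ S.length + code B d S := by
  induction P with
  | nil => simp [code]
  | cons x P ih =>
    simp only [cons_append, code, ih, length_append, pow_add]
    ring

theorem code_lt {B : ℕ} {d : α × Bool → ℕ} (hd : ∀ x, d x < B) (L : List (α × Bool)) :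
    code B d L < B ^ L.length := by
  induction L with
  | nil => simp [code]
  | cons x L ih =>
    simp only [code, length_cons, pow_succ]
    have := hd x
    calc d x * B ^ L.length + code B d L < d x * B ^ L.length + B ^ L.length := by omega
      _ = (d x + 1) * B ^ L.length := by ring
      _ ≤ B * B ^ L.length := Nat.mul_le_mul_right _ this
      _ = B ^ L.length * B := by ring

theorem code_inj {B : ℕ} {d : α × Bool → ℕ} (hd : ∀ x, d x < B) (hinj : Function.Injective d)
    {L M : List (α × Bool)} (hlen : L.length = M.length) (h : code B d L = code B d M) :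
    L = M := by
  induction L generalizing M with
  | nil =>
    cases M with
    | nil => rfl
    | cons y M => simp at hlen
  | cons x L ih =>
    cases M with
    | nil => simp at hlen
    | cons y M =>
      simp only [length_cons, Nat.add_right_cancel_iff] at hlen
      simp only [code, hlen] at h
      have h1 := code_lt hd L
      have h2 := code_lt hd M
      rw [hlen] at h1
      have hB : 0 < B ^ M.length := by omega
      have h3 : d x = d y := by
        have e1 : (d x * B ^ M.length + code B d L) / B ^ M.length = d x := by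
          rw [Nat.add_comm, Nat.add_mul_div_right _ _ hB, Nat.div_eq_of_lt h1, Nat.zero_add]
        have e2 : (d y * B ^ M.length + code B d M) / B ^ M.length = d y := by
          rw [Nat.add_comm, Nat.add_mul_div_right _ _ hB, Nat.div_eq_of_lt h2, Nat.zero_add]
        rw [← e1, ← e2, h]
      rw [h3] at h
      have h4 : code B d L = code B d M := by omega
      rw [hinj h3, ih hlen h4]

end Pool.Agent.MPb5ead8
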