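import Pool.Agent.Lib.MP_b5ead8_al.Nielsen

/-!
# MP_b5ead8_al: generating tuples of `F_1 × F_h`
-/

set_option autoImplicit false

namespace Pool.Agent.MPb5ead8

open FreeGroup Function

/-- PROOF. `FreeGroup (Fin 1)` is cyclic (generated by `of 0`), hence commutative. -/
theorem z_comm (x y : FreeGroup (Fin 1)) : x * y = y * x := by
  have hz : ∀ x : FreeGroup (Fin 1), ∃ k : ℤ, (FreeGroup.of (0 : Fin 1)) ^ k = x := by
    intro x
    have h1 : Subgroup.closure (Set.range (FreeGroup.of : Fin 1 → FreeGroup (Fin 1))) ≤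
        Subgroup.zpowers (FreeGroup.of (0 : Fin 1)) := by
      rw [Subgroup.closure_le]
      rintro _ ⟨i, rfl⟩
      rw [Subsingleton.elim i 0]
      exact Subgroup.mem_zpowers _
    rw [FreeGroup.closure_range_of] at h1
    exact Subgroup.mem_zpowers_iff.1 (h1 (Subgroup.mem_top x))
  obtain ⟨a, rfl⟩ := hz x
  obtain ⟨b, rfl⟩ := hz y
  exact zpow_mul_comm _ _ _

/-- PROOF. Let `σ : FreeGroup (Fin h) →* FreeGroup (Fin 1)` be the homomorphism `of k ↦ m k`
and `D = Subgroup.closure (Set.range n)`. The set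
`K = {(z, y) | z * (σ y)⁻¹ ∈ D}` is a subgroup of `F_1 × F_h` because `F_1` is commutative
(`z_comm`); it contains `(m k, of k)` (value `1`) and `(n i, 1)` (value `n i`). So `K = ⊤` by
`hgen` (`Subgroup.closure_le`), and `(z, 1) ∈ K` says `z ∈ D` for all `z`. -/
theorem z_gen {h : ℕ} {J : Type} (m : Fin h → FreeGroup (Fin 1)) (n : J → FreeGroup (Fin 1))
    (hgen : Subgroup.closure (Set.range (Sum.elim (fun k : Fin h => (m k, FreeGroup.of k))
      (fun i : J => (n i, (1 : FreeGroup (Fin h)))))) = ⊤) :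
    Subgroup.closure (Set.range n) = ⊤ := by
  let σ : FreeGroup (Fin h) →* FreeGroup (Fin 1) := FreeGroup.lift m
  let φ : FreeGroup (Fin 1) × FreeGroup (Fin h) →* FreeGroup (Fin 1) :=
    MonoidHom.mk' (fun x => x.1 * (σ x.2)⁻¹) (by
      rintro ⟨a, b⟩ ⟨c, d⟩
      simp only [Prod.mk_mul_mk, _root_.map_mul, mul_inv_rev]
      rw [z_comm (σ d)⁻¹ (σ b)⁻¹, mul_assoc, mul_assoc, ← mul_assoc c, z_comm c (σ b)⁻¹,
        mul_assoc])
  have hφ : ∀ x, φ x = x.1 * (σ x.2)⁻¹ := fun x => rfl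
  have hle : (⊤ : Subgroup (FreeGroup (Fin 1) × FreeGroup (Fin h))) ≤
      (Subgroup.closure (Set.range n)).comap φ := by
    rw [← hgen, Subgroup.closure_le]
    rintro _ ⟨x, rfl⟩
    rw [SetLike.mem_coe, Subgroup.mem_comap, hφ]
    cases x with
    | inl k =>
      simp only [Sum.elim_inl, σ, FreeGroup.lift_apply_of, mul_inv_cancel]
      exact one_mem _
    | inr i =>
      simp only [Sum.elim_inr, _root_.map_one, inv_one, mul_one]
      exact Subgroup.subset_closure ⟨i, rfl⟩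
  rw [eq_top_iff]
  intro z _
  have h1 := hle (Subgroup.mem_top (z, 1))
  rw [Subgroup.mem_comap, hφ] at h1
  simpa using h1

/-- Every finite generating tuple of `F_1 × F_h` is standard. PROOF.
(1) The second coordinates generate `F_h` (image under `MonoidHom.snd`, `Subgroup.map_closure` /
`MonoidHom.map_closure`, `Set.range_comp`); `nielsen` and `NE.lift_map (MonoidHom.snd _ _)` give
`t1 : Fin h ⊕ J → F_1 × F_h` with `NE t t1`, `(t1 (inl k)).2 = of k`, `(t1 (inr i)).2 = 1`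
(`J` finite). Put `m k = (t1 (inl k)).1`, `n i = (t1 (inr i)).1`, so
`t1 = Sum.elim (fun k => (m k, of k)) (fun i => (n i, 1))`.
(2) `z_gen` (with `NE.closure_top`): the `n i` generate `F_1`. `nielsen` for `n` (with `h = 1`)
gives a finite `ρ` and `NE n (Sum.elim of (fun _ : ρ => 1))`; `NE.map (MonoidHom.inl _ _)` and
`NE.sum_right` give `NE t1 (Sum.elim (fun k => (m k, of k)) z)` where
`z = Sum.elim (fun a : Fin 1 => (of a, 1)) (fun _ : ρ => 1)` (after `funext`).
(3) `(m k)⁻¹ ∈ ⊤ = closure {of 0}`, so `((m k)⁻¹, 1) = lift z (w k)` for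
`w k = FreeGroup.map Sum.inl (m k)⁻¹ : FreeGroup (Fin 1 ⊕ ρ)`
(check: `lift z ∘ map Sum.inl = MonoidHom.inl`, both send `of a` to `(of a, 1)`).
`NE.shear'` gives `NE _ (Sum.elim (fun k => (m k, of k) * ((m k)⁻¹, 1)) z)` and the entries are
`(1, of k)`.
(4) `NE.reindex` by the obvious equivalence `((Fin 1 ⊕ Fin h) ⊕ ρ) ≃ (Fin h ⊕ (Fin 1 ⊕ ρ))` (or
`NE.swap_sum` and `Equiv.sumAssoc`) gives `Sum.elim (std 1 h) (fun _ : ρ => 1)`. -/
theorem z_lemma {ι : Type} [Finite ι] {h : ℕ} (t : ι → FreeGroup (Fin 1) × FreeGroup (Fin h))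
    (ht : Subgroup.closure (Set.range t) = ⊤) : Std t := by
  have h2 : Subgroup.closure (Set.range
      (⇑(MonoidHom.snd (FreeGroup (Fin 1)) (FreeGroup (Fin h))) ∘ t)) = ⊤ := by
    rw [Set.range_comp, ← MonoidHom.map_closure, ht]
    exact Subgroup.map_top_of_surjective _ (fun y => ⟨(1, y), rfl⟩)
  obtain ⟨J, hJ, hNE⟩ := nielsen _ h2
  obtain ⟨t1, h3, h4⟩ := NE.lift_map _ hNE
  have ht1 : t1 = Sum.elim (fun k : Fin h => ((t1 (Sum.inl k)).1, FreeGroup.of k))
      (fun i : J => ((t1 (Sum.inr i)).1, (1 : FreeGroup (Fin h)))) := by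
    funext x
    cases x with
    | inl k => exact Prod.ext rfl (congrFun h4 (Sum.inl k))
    | inr i => exact Prod.ext rfl (congrFun h4 (Sum.inr i))
  have h5 := h3.closure_top ht
  rw [ht1] at h5
  have h6 := z_gen (fun k : Fin h => (t1 (Sum.inl k)).1) (fun i : J => (t1 (Sum.inr i)).1) h5
  obtain ⟨ρ, hρ, hn⟩ := nielsen _ h6
  refine ⟨ρ, hρ, ?_⟩
  let z : Fin 1 ⊕ ρ → FreeGroup (Fin 1) × FreeGroup (Fin h) :=
    ⇑(MonoidHom.inl (FreeGroup (Fin 1)) (FreeGroup (Fin h))) ∘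
      Sum.elim FreeGroup.of (fun _ : ρ => 1)
  have h7 : NE t1 (Sum.elim (fun k : Fin h => ((t1 (Sum.inl k)).1, FreeGroup.of k)) z) := by
    have h8 := NE.sum_right (fun k : Fin h => ((t1 (Sum.inl k)).1, FreeGroup.of k))
      (NE.map (MonoidHom.inl (FreeGroup (Fin 1)) (FreeGroup (Fin h))) hn)
    exact (NE.of_eq ht1).trans h8
  have h9 : ∀ x : FreeGroup (Fin 1), FreeGroup.lift z (FreeGroup.map Sum.inl x) = (x, 1) := by
    intro x
    have h10 : (FreeGroup.lift z).comp (FreeGroup.map (Sum.inl : Fin 1 → Fin 1 ⊕ ρ)) =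
        MonoidHom.inl (FreeGroup (Fin 1)) (FreeGroup (Fin h)) := by
      apply FreeGroup.ext_hom
      intro i
      rw [MonoidHom.comp_apply, FreeGroup.map.of, FreeGroup.lift_apply_of]
      rfl
    exact DFunLike.congr_fun h10 x
  have h11 : (fun k : Fin h => (((t1 (Sum.inl k)).1, FreeGroup.of k) :
      FreeGroup (Fin 1) × FreeGroup (Fin h)) *
        FreeGroup.lift z (FreeGroup.map Sum.inl ((t1 (Sum.inl k)).1)⁻¹)) =
      fun k => (1, FreeGroup.of k) := by
    funext k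
    rw [h9, Prod.mk_mul_mk, mul_inv_cancel, mul_one]
  have h12 := NE.shear' (fun k : Fin h => (((t1 (Sum.inl k)).1, FreeGroup.of k) :
      FreeGroup (Fin 1) × FreeGroup (Fin h))) z
      (fun k => FreeGroup.map Sum.inl ((t1 (Sum.inl k)).1)⁻¹)
  rw [h11] at h12
  refine h3.trans (h7.trans (h12.trans ?_))
  refine (NE.reindex _ ((Equiv.sumCongr (Equiv.sumComm (Fin 1) (Fin h)) (Equiv.refl ρ)).trans
    (Equiv.sumAssoc (Fin h) (Fin 1) ρ))).trans (NE.of_eq ?_)
  funext x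
  rcases x with (a | b) | c
  · rfl
  · rfl
  · rfl

end Pool.Agent.MPb5ead8
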